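import Mathlib

/-!
The normal form of a complex symmetric matrix under unitary congruence (Takagi).
-/

open Matrix

namespace Pool.Agent.H77.FB2

variable {n : ℕ}

/-- `|z|^2`. -/
noncomputable def nsq (z : Fin n → ℂ) : ℝ := ∑ j, ‖z j‖ ^ 2

lemma nsq_nonneg (z : Fin n → ℂ) : 0 ≤ nsq z := Finset.sum_nonneg fun _ _ => by positivity

lemma nsq_smul (c : ℂ) (z : Fin n → ℂ) : nsq (c • z) = ‖c‖ ^ 2 * nsq z := by
  simp only [nsq, Pi.smul_apply, smul_eq_mul, norm_mul, mul_pow, Finset.mul_sum]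

lemma nsq_eq_zero {z : Fin n → ℂ} (h : nsq z = 0) : z = 0 := by
  funext j
  have h1 := (Finset.sum_eq_zero_iff_of_nonneg (fun i _ => by positivity)).1 h j (Finset.mem_univ j)
  simpa using h1

lemma nsq_eq_re (z : Fin n → ℂ) : nsq z = (z ⬝ᵥ star z).re := by
  unfold nsq dotProduct
  rw [Complex.re_sum]
  refine Finset.sum_congr rfl fun j _ => ?_
  rw [Pi.star_apply, Complex.star_def, Complex.mul_conj, Complex.ofReal_re,
    Complex.normSq_eq_norm_sq]

lemma dot_star (z : Fin n → ℂ) : z ⬝ᵥ star z = (nsq z : ℂ) := by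
  unfold nsq dotProduct
  rw [Complex.ofReal_sum]
  refine Finset.sum_congr rfl fun j _ => ?_
  rw [Pi.star_apply, Complex.star_def, Complex.mul_conj, Complex.normSq_eq_norm_sq]

lemma linear_zero {α β : ℝ} (h : ∀ t : ℝ, 0 ≤ t * α + t ^ 2 * β) : α = 0 := by
  by_contra hne
  have h1 := h (-α / (|β| + 1))
  have hb : 0 < |β| + 1 := by positivity
  have h2 : -α / (|β| + 1) * α + (-α / (|β| + 1)) ^ 2 * β
      = (α ^ 2 * (β - |β| - 1)) / (|β| + 1) ^ 2 := by
    field_simp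
    ring
  rw [h2] at h1
  have h3 : α ^ 2 * (β - |β| - 1) < 0 := by
    have h4 : 0 < α ^ 2 := by positivity
    have h5 : β - |β| - 1 < 0 := by linarith [le_abs_self β]
    exact mul_neg_of_pos_of_neg h4 h5
  have h4 := div_neg_of_neg_of_pos h3 (show 0 < (|β| + 1) ^ 2 by positivity)
  linarith

lemma symm_dot {A : Matrix (Fin n) (Fin n) ℂ} (hA : A.transpose = A) (z w : Fin n → ℂ) :
    z ⬝ᵥ A *ᵥ w = w ⬝ᵥ A *ᵥ z := by
  rw [dotProduct_mulVec, dotProduct_comm, ← mulVec_transpose, hA]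

lemma exists_dot_ne {A : Matrix (Fin n) (Fin n) ℂ} (hA : A.transpose = A) (h0 : A ≠ 0) :
    ∃ z : Fin n → ℂ, z ⬝ᵥ A *ᵥ z ≠ 0 := by
  by_contra hne
  push Not at hne
  apply h0
  have h1 : ∀ z w : Fin n → ℂ, z ⬝ᵥ A *ᵥ w = 0 := by
    intro z w
    have h2 := hne (z + w)
    rw [mulVec_add, dotProduct_add, add_dotProduct, add_dotProduct, hne z, hne w,
      symm_dot hA w z] at h2
    have h3 : (2 : ℂ) * (z ⬝ᵥ A *ᵥ w) = 0 := by linear_combination h2
    exact (mul_eq_zero.1 h3).resolve_left two_ne_zero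
  ext i j
  have h2 := h1 (Pi.single i 1) (Pi.single j 1)
  rw [mulVec_single_one, single_one_dotProduct] at h2
  simpa using h2

/-- The maximum of `Re (zᵀ A z)` on the unit sphere. -/
theorem exists_vec {A : Matrix (Fin n) (Fin n) ℂ} (hA : A.transpose = A) (h0 : A ≠ 0) :
    ∃ (v : Fin n → ℂ) (s : ℝ), 0 < s ∧ nsq v = 1 ∧ A *ᵥ v = (s : ℂ) • star v := by
  obtain ⟨z₀, hz₀⟩ := exists_dot_ne hA h0
  have hz₀' : z₀ ≠ 0 := by
    rintro rfl
    exact hz₀ (by simp)
  have hns : 0 < nsq z₀ := lt_of_le_of_ne (nsq_nonneg _) fun h => hz₀' (nsq_eq_zero h.symm)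
  -- the sphere
  have hcont : Continuous (nsq (n := n)) := by
    unfold nsq
    fun_prop
  have hS : IsCompact {z : Fin n → ℂ | nsq z = 1} := by
    refine Metric.isCompact_of_isClosed_isBounded (isClosed_eq hcont continuous_const) ?_
    refine (Metric.isBounded_closedBall (x := (0 : Fin n → ℂ)) (r := 1)).subset fun z hz => ?_
    rw [mem_closedBall_zero_iff, pi_norm_le_iff_of_nonneg zero_le_one]
    intro j
    have h1 : ‖z j‖ ^ 2 ≤ 1 := by
      have h2 : nsq z = 1 := hz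
      rw [← h2]
      exact Finset.single_le_sum (f := fun j => ‖z j‖ ^ 2) (fun i _ => by positivity)
        (Finset.mem_univ j)
    nlinarith [norm_nonneg (z j)]
  have hq : Continuous fun z : Fin n → ℂ => (z ⬝ᵥ A *ᵥ z).re := by
    apply Complex.continuous_re.comp
    exact continuous_id.dotProduct (continuous_const.matrix_mulVec continuous_id)
  have hnorm : ∀ z : Fin n → ℂ, 0 < nsq z → nsq (((Real.sqrt (nsq z))⁻¹ : ℂ) • z) = 1 := by
    intro z hz
    rw [nsq_smul, norm_inv, Complex.norm_real, Real.norm_eq_abs, inv_pow, sq_abs,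
      Real.sq_sqrt hz.le, inv_mul_cancel₀ hz.ne']
  obtain ⟨v, hv, hmax⟩ := hS.exists_isMaxOn ⟨_, hnorm z₀ hns⟩ hq.continuousOn
  set s : ℝ := (v ⬝ᵥ A *ᵥ v).re with hs
  have hhom : ∀ (c : ℂ) (z : Fin n → ℂ), (c • z) ⬝ᵥ A *ᵥ (c • z) = c ^ 2 * (z ⬝ᵥ A *ᵥ z) := by
    intro c z
    rw [mulVec_smul, dotProduct_smul, smul_dotProduct, smul_eq_mul, smul_eq_mul]
    ring
  have hle : ∀ z : Fin n → ℂ, (z ⬝ᵥ A *ᵥ z).re ≤ s * nsq z := by
    intro z
    rcases (nsq_nonneg z).eq_or_lt with h | h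
    · rw [nsq_eq_zero h.symm]
      simp [nsq]
    · have h1 := hmax (hnorm z h)
      change ((((Real.sqrt (nsq z))⁻¹ : ℂ) • z) ⬝ᵥ A *ᵥ (((Real.sqrt (nsq z))⁻¹ : ℂ) • z)).re ≤ s
        at h1
      rw [hhom, inv_pow, ← Complex.ofReal_pow, Real.sq_sqrt h.le, ← Complex.ofReal_inv,
        Complex.re_ofReal_mul, inv_mul_le_iff₀ h] at h1
      linarith
  have hs0 : 0 < s := by
    -- rotate
    obtain ⟨c, hc⟩ : ∃ c : ℂ, c ^ 2 = (starRingEnd ℂ) (z₀ ⬝ᵥ A *ᵥ z₀) :=
      IsAlgClosed.exists_pow_nat_eq _ (by norm_num)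
    have h1 := hle (c • z₀)
    rw [hhom, hc, mul_comm, Complex.mul_conj, Complex.ofReal_re] at h1
    have h2 : 0 < Complex.normSq (z₀ ⬝ᵥ A *ᵥ z₀) := Complex.normSq_pos.2 hz₀
    by_contra h3
    push Not at h3
    have h4 : s * nsq (c • z₀) ≤ 0 := mul_nonpos_of_nonpos_of_nonneg h3 (nsq_nonneg _)
    linarith
  refine ⟨v, s, hs0, hv, ?_⟩
  -- the first variation
  have hvar : ∀ w : Fin n → ℂ, (w ⬝ᵥ ((s : ℂ) • star v - A *ᵥ v)).re = 0 := by
    intro w
    have h1 : ∀ t : ℝ, 0 ≤ t * (2 * (w ⬝ᵥ ((s : ℂ) • star v - A *ᵥ v)).re)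
        + t ^ 2 * (s * nsq w - (w ⬝ᵥ A *ᵥ w).re) := by
      intro t
      have h2 := hle (v + (t : ℂ) • w)
      have h3 : (v + (t : ℂ) • w) ⬝ᵥ A *ᵥ (v + (t : ℂ) • w) = v ⬝ᵥ A *ᵥ v
          + 2 * t * (w ⬝ᵥ A *ᵥ v) + t ^ 2 * (w ⬝ᵥ A *ᵥ w) := by
        rw [mulVec_add, dotProduct_add, add_dotProduct, add_dotProduct, mulVec_smul,
          dotProduct_smul, smul_dotProduct, smul_dotProduct, dotProduct_smul,
          symm_dot hA v w]
        simp only [smul_eq_mul]
        ring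
      have h4 : nsq (v + (t : ℂ) • w) = nsq v + t * (2 * (w ⬝ᵥ star v).re) + t ^ 2 * nsq w := by
        rw [nsq_eq_re, nsq_eq_re v, nsq_eq_re w, star_add, star_smul, dotProduct_add,
          add_dotProduct, add_dotProduct, dotProduct_smul, smul_dotProduct, smul_dotProduct,
          dotProduct_smul]
        have h5 : (v ⬝ᵥ star w).re = (w ⬝ᵥ star v).re := by
          have h6 : v ⬝ᵥ star w = star (w ⬝ᵥ star v) := by
            simp only [dotProduct, star_sum, star_mul, Pi.star_apply, star_star]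
          rw [h6]
          rfl
        simp only [smul_eq_mul, Complex.star_def, Complex.conj_ofReal, Complex.add_re,
          Complex.re_ofReal_mul, h5]
        ring
      rw [h3, h4, hv] at h2
      rw [dotProduct_sub, dotProduct_smul, smul_eq_mul, Complex.sub_re, Complex.re_ofReal_mul]
      have h5 : (v ⬝ᵥ A *ᵥ v + 2 * t * (w ⬝ᵥ A *ᵥ v) + t ^ 2 * (w ⬝ᵥ A *ᵥ w)).re
          = s + 2 * t * (w ⬝ᵥ A *ᵥ v).re + t ^ 2 * (w ⬝ᵥ A *ᵥ w).re := by
        have h6 : (2 * t : ℂ) = ((2 * t : ℝ) : ℂ) := by push_cast; ring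
        rw [Complex.add_re, Complex.add_re, ← Complex.ofReal_pow, Complex.re_ofReal_mul, h6,
          Complex.re_ofReal_mul]
      rw [h5] at h2
      nlinarith
    have h2 := linear_zero h1
    linarith
  have h1 := hvar (star ((s : ℂ) • star v - A *ᵥ v))
  rw [dotProduct_comm, ← nsq_eq_re] at h1
  have h2 := nsq_eq_zero h1
  exact (sub_eq_zero.1 h2).symm

/-- An orthonormal family `star (r i)` of vectors, in the number `k`, adapted to `A`. -/
def Fam (A : Matrix (Fin n) (Fin n) ℂ) (k : ℕ) : Prop :=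
  ∃ (V : Matrix (Fin k) (Fin n) ℂ) (s : Fin k → ℝ), V * V.conjTranspose = 1 ∧
    (∀ i, 0 < s i) ∧ ∀ i, A *ᵥ star (V i) = (s i : ℂ) • V i

lemma fam_le {A : Matrix (Fin n) (Fin n) ℂ} {k : ℕ} (h : Fam A k) : k ≤ n := by
  obtain ⟨V, s, hV, -, -⟩ := h
  have h1 : (V * V.conjTranspose).rank ≤ n :=
    (rank_mul_le_left V V.conjTranspose).trans (by simpa using rank_le_card_width V)
  rwa [hV, rank_one, Fintype.card_fin] at h1

/-- The rest of `A` after the removal of the family. -/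
noncomputable def rest (A : Matrix (Fin n) (Fin n) ℂ) {k : ℕ} (V : Matrix (Fin k) (Fin n) ℂ)
    (s : Fin k → ℝ) : Matrix (Fin n) (Fin n) ℂ :=
  A - V.transpose * diagonal (fun i => (s i : ℂ)) * V

lemma rest_symm {A : Matrix (Fin n) (Fin n) ℂ} (hA : A.transpose = A) {k : ℕ}
    (V : Matrix (Fin k) (Fin n) ℂ) (s : Fin k → ℝ) : (rest A V s).transpose = rest A V s := by
  unfold rest
  rw [transpose_sub, hA, transpose_mul, transpose_mul, transpose_transpose, diagonal_transpose,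
    Matrix.mul_assoc]

lemma rest_mulVec (A : Matrix (Fin n) (Fin n) ℂ) {k : ℕ} (V : Matrix (Fin k) (Fin n) ℂ)
    (s : Fin k → ℝ) (z : Fin n → ℂ) :
    rest A V s *ᵥ z = A *ᵥ z - V.transpose *ᵥ (fun i => (s i : ℂ) * (V *ᵥ z) i) := by
  unfold rest
  rw [sub_mulVec, ← mulVec_mulVec, ← mulVec_mulVec]
  congr 2
  funext i
  rw [mulVec_diagonal]

lemma dot_row {k : ℕ} {V : Matrix (Fin k) (Fin n) ℂ} (hV : V * V.conjTranspose = 1) (i j : Fin k) :
    V i ⬝ᵥ star (V j) = if i = j then 1 else 0 := by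
  have h := congrFun (congrFun hV i) j
  rw [mul_apply] at h
  rw [Matrix.one_apply] at h
  rw [← h]
  rfl

lemma fam_succ {A : Matrix (Fin n) (Fin n) ℂ} (hA : A.transpose = A) {k : ℕ}
    {V : Matrix (Fin k) (Fin n) ℂ} {s : Fin k → ℝ} (hV : V * V.conjTranspose = 1)
    (hs : ∀ i, 0 < s i) (hE : ∀ i, A *ᵥ star (V i) = (s i : ℂ) • V i) (h0 : rest A V s ≠ 0) :
    Fam A (k + 1) := by
  obtain ⟨v, t, ht, hv, hAv⟩ := exists_vec (rest_symm hA V s) h0
  have hker : ∀ i, rest A V s *ᵥ star (V i) = 0 := by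
    intro i
    rw [rest_mulVec, hE]
    have h1 : V *ᵥ star (V i) = Pi.single i 1 := by
      funext j
      change V j ⬝ᵥ star (V i) = _
      rw [dot_row hV, Pi.single_apply]
    rw [h1]
    have h2 : (fun j => (s j : ℂ) * (Pi.single i 1 : Fin k → ℂ) j)
        = (s i : ℂ) • (Pi.single i 1 : Fin k → ℂ) := by
      funext j
      rw [Pi.smul_apply, smul_eq_mul]
      by_cases hij : j = i
      · subst hij; rfl
      · rw [Pi.single_eq_of_ne hij, mul_zero, mul_zero]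
    rw [h2, mulVec_smul, mulVec_single_one]
    have h3 : V.transpose.col i = V i := rfl
    rw [h3, sub_self]
  have hVv : ∀ i, V i ⬝ᵥ v = 0 := by
    intro i
    have h1 : star (V i) ⬝ᵥ rest A V s *ᵥ v = 0 := by
      rw [symm_dot (rest_symm hA V s), hker, dotProduct_zero]
    rw [hAv, dotProduct_smul, smul_eq_mul] at h1
    have h2 := (mul_eq_zero.1 h1).resolve_left (by exact_mod_cast ht.ne')
    have h3 : star (V i ⬝ᵥ v) = 0 := by
      rw [← h2]
      simp only [dotProduct, star_sum, star_mul', Pi.star_apply]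
    exact star_eq_zero.1 h3
  have hAv' : A *ᵥ v = (t : ℂ) • star v := by
    rw [rest_mulVec] at hAv
    have h1 : (fun i => (s i : ℂ) * (V *ᵥ v) i) = 0 := by
      funext i
      have h2 : (V *ᵥ v) i = 0 := hVv i
      rw [h2, mul_zero]
      rfl
    rwa [h1, mulVec_zero, sub_zero] at hAv
  refine ⟨Fin.cons (star v) V, Fin.cons t s, ?_, ?_, ?_⟩
  · ext i j
    rw [mul_apply, Matrix.one_apply]
    change (Fin.cons (star v) V : Fin (k + 1) → Fin n → ℂ) i ⬝ᵥ
      star ((Fin.cons (star v) V : Fin (k + 1) → Fin n → ℂ) j) = _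
    refine Fin.cases ?_ (fun i => ?_) i <;> refine Fin.cases ?_ (fun j => ?_) j
    · rw [Fin.cons_zero, star_star, dotProduct_comm, dot_star, hv, if_pos rfl]
      simp
    · rw [Fin.cons_zero, Fin.cons_succ, if_neg (Fin.succ_ne_zero j).symm]
      have h3 : star v ⬝ᵥ star (V j) = star (V j ⬝ᵥ v) := by
        simp only [dotProduct, star_sum, star_mul', Pi.star_apply, mul_comm]
      rw [h3, hVv, star_zero]
    · rw [Fin.cons_zero, Fin.cons_succ, star_star, hVv, if_neg (Fin.succ_ne_zero i)]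
    · rw [Fin.cons_succ, Fin.cons_succ, dot_row hV]
      simp only [Fin.succ_inj]
  · intro i
    refine Fin.cases ?_ (fun i => ?_) i
    · exact ht
    · exact hs i
  · intro i
    refine Fin.cases ?_ (fun i => ?_) i
    · change A *ᵥ star (star v) = (t : ℂ) • star v
      rw [star_star, hAv']
    · exact hE i

/-- The normal form of a symmetric matrix. -/
theorem takagi_rows {A : Matrix (Fin n) (Fin n) ℂ} (hA : A.transpose = A) :
    ∃ (k : ℕ) (V : Matrix (Fin k) (Fin n) ℂ) (s : Fin k → ℝ), V * V.conjTranspose = 1 ∧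
      (∀ i, 0 < s i) ∧ (∀ i, A *ᵥ star (V i) = (s i : ℂ) • V i) ∧
      ∀ z, A *ᵥ z = V.transpose *ᵥ (fun i => (s i : ℂ) * (V *ᵥ z) i) := by
  by_contra hne
  have h1 : ∀ k, Fam A k := by
    intro k
    induction k with
    | zero => exact ⟨fun i => i.elim0, fun i => i.elim0, by ext i; exact i.elim0,
        fun i => i.elim0, fun i => i.elim0⟩
    | succ k ih =>
      obtain ⟨V, s, hV, hs, hE⟩ := ih
      refine fam_succ hA hV hs hE fun h0 => hne ⟨k, V, s, hV, hs, hE, fun z => ?_⟩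
      have h2 := rest_mulVec A V s z
      rw [h0, zero_mulVec] at h2
      exact (sub_eq_zero.1 h2.symm)
  have := fam_le (h1 (n + 1))
  omega

end Pool.Agent.H77.FB2
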