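import Pool.Agent.H77.FB2.ParEst
import Pool.Agent.H77.FB2.Tak
import Pool.Agent.H60.FB.Prod
import Pool.Agent.H37.FB.Homog

/-!
The a priori estimate for all polynomials of degree at most 2.
-/

open MvPolynomial MeasureTheory Pool.Agent.H77.FB Pool.Agent.H60.FB Matrix

namespace Pool.Agent.H77.FB2

variable {n : ℕ}

/-- The quadratic part. -/
noncomputable def qq (A : Matrix (Fin n) (Fin n) ℂ) : MvPolynomial (Fin n) ℂ :=
  ∑ i, ∑ j, C (A i j) * X i * X j

/-- The linear part. -/
noncomputable def ql (b : Fin n → ℂ) : MvPolynomial (Fin n) ℂ := ∑ j, C (b j) * X j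

/-- The polynomial of degree at most 2 with the given coefficients. -/
noncomputable def qp (A : Matrix (Fin n) (Fin n) ℂ) (b : Fin n → ℂ) (c : ℂ) :
    MvPolynomial (Fin n) ℂ := qq A + ql b + C c

lemma eval_qq (A : Matrix (Fin n) (Fin n) ℂ) (z : Fin n → ℂ) :
    eval z (qq A) = z ⬝ᵥ A *ᵥ z := by
  simp only [qq, map_sum, map_mul, eval_C, eval_X, dotProduct, mulVec, Finset.mul_sum]
  refine Finset.sum_congr rfl fun i _ => Finset.sum_congr rfl fun j _ => by ring

lemma eval_ql (b z : Fin n → ℂ) : eval z (ql b) = b ⬝ᵥ z := by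
  simp only [ql, map_sum, map_mul, eval_C, eval_X, dotProduct]

lemma eval_qp (A : Matrix (Fin n) (Fin n) ℂ) (b : Fin n → ℂ) (c : ℂ) (z : Fin n → ℂ) :
    eval z (qp A b c) = z ⬝ᵥ A *ᵥ z + b ⬝ᵥ z + c := by
  rw [qp, map_add, map_add, eval_qq, eval_ql, eval_C]

/-- A polynomial of degree at most 2 is of this form. -/
lemma exists_qp (P : MvPolynomial (Fin n) ℂ) (hP : P.totalDegree ≤ 2) :
    ∃ (A : Matrix (Fin n) (Fin n) ℂ) (b : Fin n → ℂ) (c : ℂ), A.transpose = A ∧ P = qp A b c := by
  suffices h : ∃ (A : Matrix (Fin n) (Fin n) ℂ) (b : Fin n → ℂ) (c : ℂ), A.transpose = A ∧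
      ∀ z, eval z P = z ⬝ᵥ A *ᵥ z + b ⬝ᵥ z + c by
    obtain ⟨A, b, c, hA, h⟩ := h
    exact ⟨A, b, c, hA, MvPolynomial.funext fun z => by rw [h, eval_qp]⟩
  have key : ∀ s ∈ P.support, ∃ (A : Matrix (Fin n) (Fin n) ℂ) (b : Fin n → ℂ) (c : ℂ),
      A.transpose = A ∧ ∀ z, eval z (monomial s (P.coeff s)) = z ⬝ᵥ A *ᵥ z + b ⬝ᵥ z + c := by
    intro s hs
    set a := P.coeff s with ha
    have hd : s.degree ≤ 2 := by
      have h1 := le_totalDegree hs
      have h2 : s.sum (fun _ e => e) = s.degree := rfl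
      omega
    by_cases h0 : s = 0
    · subst h0
      refine ⟨0, 0, a, transpose_zero, fun z => ?_⟩
      simp
    obtain ⟨i, hi⟩ : ∃ i, s i ≠ 0 := by
      by_contra h; push Not at h; exact h0 (Finsupp.ext h)
    have hle : Finsupp.single i 1 ≤ s := by
      rw [Finsupp.single_le_iff]; omega
    obtain ⟨s', hs'⟩ := exists_add_of_le hle
    by_cases h0' : s' = 0
    · subst h0'
      rw [add_zero] at hs'
      refine ⟨0, Pi.single i a, 0, transpose_zero, fun z => ?_⟩
      rw [hs', eval_monomial]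
      simp
    obtain ⟨j, hj⟩ : ∃ j, s' j ≠ 0 := by
      by_contra h; push Not at h; exact h0' (Finsupp.ext h)
    have hle' : Finsupp.single j 1 ≤ s' := by
      rw [Finsupp.single_le_iff]; omega
    obtain ⟨s'', hs''⟩ := exists_add_of_le hle'
    have h0'' : s'' = 0 := by
      have h1 : s.degree = 1 + (1 + s''.degree) := by
        rw [hs', hs'', map_add, map_add, Finsupp.degree_single, Finsupp.degree_single]
      have h2 : s''.degree = 0 := by omega
      exact (Finsupp.degree_eq_zero_iff _).1 h2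
    rw [h0'', add_zero] at hs''
    refine ⟨(a / 2) • (Matrix.single i j 1 + Matrix.single j i 1), 0, 0, ?_, fun z => ?_⟩
    · rw [transpose_smul, transpose_add, transpose_single, transpose_single, add_comm]
    · have hp : ∀ i : Fin n, (Finsupp.single i 1).prod (fun x e => z x ^ e) = z i :=
        fun i => by simp
      rw [hs', hs'', eval_monomial, Finsupp.prod_add_index' (fun _ => pow_zero _)
        (fun _ _ _ => pow_add _ _ _), hp, hp, smul_mulVec, add_mulVec, single_mulVec,
        single_mulVec, dotProduct_smul, dotProduct_add, zero_dotProduct]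
      have h1 : ∀ (i : Fin n) (x : ℂ), z ⬝ᵥ Function.update 0 i x = z i * x := by
        intro i x
        change z ⬝ᵥ Pi.single i x = _
        rw [dotProduct_single]
      rw [h1, h1, smul_eq_mul]
      ring
  choose! A b c hA hE using key
  refine ⟨∑ s ∈ P.support, A s, ∑ s ∈ P.support, b s, ∑ s ∈ P.support, c s, ?_, fun z => ?_⟩
  · rw [transpose_sum]
    exact Finset.sum_congr rfl fun s hs => hA s hs
  · conv_lhs => rw [P.as_sum, map_sum]
    rw [Finset.sum_congr rfl fun s hs => hE s hs z, Finset.sum_add_distrib,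
      Finset.sum_add_distrib, sum_mulVec, dotProduct_sum, sum_dotProduct]

lemma hom_qq (A : Matrix (Fin n) (Fin n) ℂ) : (qq A).IsHomogeneous 2 := by
  refine IsHomogeneous.sum _ _ _ fun i _ => IsHomogeneous.sum _ _ _ fun j _ => ?_
  have h := ((isHomogeneous_C (Fin n) (A i j)).mul (isHomogeneous_X ℂ i)).mul
    (isHomogeneous_X ℂ j)
  simpa using h

lemma hom_ql (b : Fin n → ℂ) : (ql b).IsHomogeneous 1 := by
  refine IsHomogeneous.sum _ _ _ fun j _ => ?_
  have h := (isHomogeneous_C (Fin n) (b j)).mul (isHomogeneous_X ℂ j)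
  simpa using h

lemma hc_qp (A : Matrix (Fin n) (Fin n) ℂ) (b : Fin n → ℂ) (c : ℂ) :
    homogeneousComponent 2 (qp A b c) = qq A := by
  rw [qp, map_add, map_add, homogeneousComponent_of_mem (hom_qq A),
    homogeneousComponent_of_mem (hom_ql b),
    homogeneousComponent_of_mem (isHomogeneous_C (Fin n) c)]
  simp

lemma totalDegree_qp {A : Matrix (Fin n) (Fin n) ℂ} (hA : A.transpose = A) (h0 : A ≠ 0)
    (b : Fin n → ℂ) (c : ℂ) : (qp A b c).totalDegree = 2 := by
  apply le_antisymm
  · rw [qp]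
    refine (totalDegree_add _ _).trans (max_le ((totalDegree_add _ _).trans
      (max_le (hom_qq A).totalDegree_le ((hom_ql b).totalDegree_le.trans (by norm_num)))) ?_)
    rw [totalDegree_C]
    norm_num
  · by_contra hlt
    push Not at hlt
    obtain ⟨z, hz⟩ := exists_dot_ne hA h0
    apply hz
    rw [← eval_qq, ← hc_qp A b c, homogeneousComponent_eq_zero _ _ hlt, map_zero]

lemma eval_pderiv_qq {A : Matrix (Fin n) (Fin n) ℂ} (hA : A.transpose = A) (v : Fin n → ℂ)
    (j : Fin n) : eval v (pderiv j (qq A)) = 2 * (A *ᵥ v) j := by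
  have hA' : ∀ i l, A i l = A l i := fun i l => by
    conv_lhs => rw [← hA]
    rfl
  simp only [qq, map_sum, Derivation.leibniz, pderiv_C, pderiv_X, smul_eq_mul, mul_zero, add_zero,
    map_add, map_mul, eval_X, eval_C]
  have h1 : ∀ x : Fin n, (eval v) ((Pi.single j 1 : Fin n → MvPolynomial (Fin n) ℂ) x)
      = if x = j then 1 else 0 := by
    intro x
    rw [Pi.single_apply]
    split_ifs <;> simp
  simp only [h1, mul_ite, mul_one, mul_zero, Finset.sum_add_distrib, Finset.sum_ite_eq',
    Finset.mem_univ, if_true]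
  have h2 : ∑ x, ∑ y, (if x = j then v y * A x y else 0) = ∑ y, v y * A j y := by
    rw [Finset.sum_eq_single j]
    · simp
    · intro x _ hx
      simp [hx]
    · intro hx
      exact absurd (Finset.mem_univ j) hx
  rw [h2, two_mul]
  unfold mulVec dotProduct
  congr 1
  · refine Finset.sum_congr rfl fun x _ => by rw [hA' x j]
  · refine Finset.sum_congr rfl fun x _ => by ring

/-- The a priori estimate. -/
theorem est_qp {A : Matrix (Fin n) (Fin n) ℂ} (hA : A.transpose = A) (b : Fin n → ℂ) (c : ℂ) :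
    Est (qp A b c) := by
  obtain ⟨k, V, s, hV, hs, hE, hAz⟩ := takagi_rows hA
  have hsC : ∀ i, (s i : ℂ) ≠ 0 := fun i => by exact_mod_cast (hs i).ne'
  set β : Fin k → ℂ := fun i => b ⬝ᵥ star (V i) with hβ
  set b' : Fin n → ℂ := b - V.transpose *ᵥ β with hb'
  have hVVs : ∀ i, V *ᵥ star (V i) = Pi.single i 1 := by
    intro i
    funext j
    change V j ⬝ᵥ star (V i) = _
    rw [dot_row hV, Pi.single_apply]
  have htr : ∀ (x : Fin k → ℂ) (z : Fin n → ℂ), V.transpose *ᵥ x ⬝ᵥ z = x ⬝ᵥ V *ᵥ z := by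
    intro x z
    rw [dotProduct_mulVec, mulVec_transpose]
  have hb'V : ∀ i, b' ⬝ᵥ star (V i) = 0 := by
    intro i
    rw [hb', sub_dotProduct, htr, hVVs, dotProduct_single, mul_one]
    exact sub_self _
  have hform : ∀ z, eval z (qp A b c) = ∑ i, (s i : ℂ) * (V *ᵥ z) i ^ 2 + ∑ i, β i * (V *ᵥ z) i
      + b' ⬝ᵥ z + c := by
    intro z
    have h1 : b ⬝ᵥ z = β ⬝ᵥ V *ᵥ z + b' ⬝ᵥ z := by
      rw [hb', sub_dotProduct, htr]
      ring
    have h2 : z ⬝ᵥ A *ᵥ z = ∑ i, (s i : ℂ) * (V *ᵥ z) i ^ 2 := by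
      rw [hAz, dotProduct_comm, htr]
      unfold dotProduct
      refine Finset.sum_congr rfl fun i _ => by ring
    rw [eval_qp, h1, h2]
    unfold dotProduct
    ring
  by_cases hb0 : b' = 0
  · by_cases hA0 : A = 0
    · -- constants
      have hk : IsEmpty (Fin k) := by
        constructor
        intro i
        have h1 := hE i
        rw [hA0, zero_mulVec] at h1
        have h2 : V i = 0 := (smul_eq_zero.1 h1.symm).resolve_left (hsC i)
        have h3 := dot_row hV i i
        rw [h2, if_pos rfl, zero_dotProduct] at h3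
        exact zero_ne_one h3
      have h1 : qp A b c = C c := by
        apply MvPolynomial.funext
        intro z
        rw [hform, hb0, eval_C]
        simp
      rw [h1]
      exact est_C c
    · -- the period case
      apply est_of_period
      intro v hv z
      rw [totalDegree_qp hA hA0, hc_qp] at hv
      have h1 : A *ᵥ v = 0 := by
        funext j
        have h2 := hv j
        rw [eval_pderiv_qq hA] at h2
        exact (mul_eq_zero.1 h2).resolve_left two_ne_zero
      have h2 : V *ᵥ v = 0 := by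
        funext i
        have h3 : star (V i) ⬝ᵥ A *ᵥ v = 0 := by rw [h1, dotProduct_zero]
        rw [symm_dot hA, hE, dotProduct_smul, smul_eq_mul] at h3
        have h4 := (mul_eq_zero.1 h3).resolve_left (hsC i)
        rw [dotProduct_comm] at h4
        exact h4
      rw [hform, hform, mulVec_add, h2, add_zero, hb0, zero_dotProduct, zero_dotProduct]
  · -- the paraboloid
    have hns : 0 < nsq b' := lt_of_le_of_ne (nsq_nonneg _) fun h => hb0 (nsq_eq_zero h.symm)
    set τ : ℝ := Real.sqrt (nsq b') with hτ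
    have hτ0 : 0 < τ := Real.sqrt_pos.2 hns
    have hτC : (τ : ℂ) ≠ 0 := by exact_mod_cast hτ0.ne'
    have hτ2 : (τ : ℂ) * τ = nsq b' := by
      rw [← Complex.ofReal_mul, Real.mul_self_sqrt hns.le]
    set w : Fin n → ℂ := (-(τ : ℂ)⁻¹) • b' with hw
    set a₀ : Fin k → ℂ := fun i => β i / (2 * s i) with ha₀
    set a : Fin (k + 1) → ℂ :=
      Fin.snoc a₀ ((∑ i, (s i : ℂ) * a₀ i ^ 2 - c) / τ) with ha
    set Q : MvPolynomial (Fin (k + 1)) ℂ := aeval (fun j => X j + C (a j)) (par s τ) with hQ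
    have hQe : ∀ y, eval y Q = eval (y + a) (par s τ) := by
      intro y
      rw [hQ, eval_aeval_lin]
      congr 2
      funext j
      simp
    have hQE : Est Q := est_translate (par s τ) Q a hQe (est_par hs hτ0)
    set L : Matrix (Fin (k + 1)) (Fin n) ℂ := Fin.snoc V w with hL
    have hLc : ∀ i : Fin k, L i.castSucc = V i := fun i => by rw [hL]; exact Fin.snoc_castSucc _ _ i
    have hLl : L (Fin.last k) = w := by rw [hL]; exact Fin.snoc_last _ _
    have hww : w ⬝ᵥ star w = 1 := by
      rw [hw, star_smul, dotProduct_smul, smul_dotProduct, dot_star]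
      simp only [smul_eq_mul, star_neg, star_inv₀, Complex.star_def, Complex.conj_ofReal]
      rw [← hτ2]
      field_simp
    have hwV : ∀ i, w ⬝ᵥ star (V i) = 0 := by
      intro i
      rw [hw, smul_dotProduct, hb'V, smul_zero]
    have hVw : ∀ i, V i ⬝ᵥ star w = 0 := by
      intro i
      have h1 : V i ⬝ᵥ star w = star (w ⬝ᵥ star (V i)) := by
        simp only [dotProduct, star_sum, star_mul, Pi.star_apply, _root_.star_star]
      rw [h1, hwV, star_zero]
    have hLL : L * L.conjTranspose = 1 := by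
      ext i j
      rw [mul_apply, Matrix.one_apply]
      change L i ⬝ᵥ star (L j) = _
      refine Fin.lastCases ?_ (fun i => ?_) i <;> refine Fin.lastCases ?_ (fun j => ?_) j
      · rw [hLl, hww, if_pos rfl]
      · rw [hLl, hLc, hwV, if_neg (Fin.castSucc_lt_last j).ne']
      · rw [hLl, hLc, hVw, if_neg (Fin.castSucc_lt_last i).ne]
      · rw [hLc, hLc, dot_row hV]
        simp only [Fin.castSucc_inj]
    have hP : ∀ z, eval z (qp A b c) = eval (L *ᵥ z) Q := by
      intro z
      rw [hQe, eval_par, hform]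
      have h1 : ∀ i : Fin k, (L *ᵥ z + a) i.castSucc = (V *ᵥ z) i + a₀ i := by
        intro i
        have h2 : (L *ᵥ z) i.castSucc = (V *ᵥ z) i := by
          change L i.castSucc ⬝ᵥ z = V i ⬝ᵥ z
          rw [hLc]
        have h3 : a i.castSucc = a₀ i := by rw [ha, Fin.snoc_castSucc]
        rw [Pi.add_apply, h2, h3]
      have h4 : (L *ᵥ z + a) (Fin.last k) = w ⬝ᵥ z + (∑ i, (s i : ℂ) * a₀ i ^ 2 - c) / τ := by
        have h2 : (L *ᵥ z) (Fin.last k) = w ⬝ᵥ z := by
          change L (Fin.last k) ⬝ᵥ z = _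
          rw [hLl]
        have h3 : a (Fin.last k) = (∑ i, (s i : ℂ) * a₀ i ^ 2 - c) / τ := by
          rw [ha, Fin.snoc_last]
        rw [Pi.add_apply, h2, h3]
      have h5 : (τ : ℂ) * (w ⬝ᵥ z + (∑ i, (s i : ℂ) * a₀ i ^ 2 - c) / τ)
          = -(b' ⬝ᵥ z) + ∑ i, (s i : ℂ) * a₀ i ^ 2 - c := by
        rw [hw, smul_dotProduct, smul_eq_mul]
        field_simp
        ring
      have h6 : ∑ i, (s i : ℂ) * ((V *ᵥ z) i + a₀ i) ^ 2 = ∑ i, (s i : ℂ) * (V *ᵥ z) i ^ 2
          + ∑ i, β i * (V *ᵥ z) i + ∑ i, (s i : ℂ) * a₀ i ^ 2 := by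
        rw [← Finset.sum_add_distrib, ← Finset.sum_add_distrib]
        refine Finset.sum_congr rfl fun i _ => ?_
        have h7 : β i = 2 * s i * a₀ i := by
          rw [ha₀]
          field_simp [hsC i]
        rw [h7]
        ring
      simp only [h1, h4]
      rw [h5, h6]
      ring
    refine est_slice (qp A b c) Q L hLL (fun y => ?_) (fun z => ?_) hQE
    · rw [hP, mulVec_mulVec, hLL, one_mulVec]
    · rw [hP, hP, mulVec_mulVec, hLL, one_mulVec]

/-- The a priori estimate holds for all polynomials of degree at most 2. -/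
theorem est_degree_two (P : MvPolynomial (Fin n) ℂ) (hP : P.totalDegree ≤ 2) : Est P := by
  obtain ⟨A, b, c, hA, rfl⟩ := exists_qp P hP
  exact est_qp hA b c

end Pool.Agent.H77.FB2
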