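import Mathlib

/-!
One complex variable: a polynomial of degree `≤ d` bounded by `B` on a real interval is bounded
by `B C^(d+1)` on a disc; an entire function of polynomial growth is a polynomial; the second
derivative at a maximum.
-/

open Polynomial

namespace Pool.Agent.H77.FB2

lemma prod_sub_left (i : ℕ) : ∏ j ∈ Finset.range i, ((i : ℝ) - j) = i.factorial := by
  rw [← Finset.prod_range_add_one_eq_factorial, Nat.cast_prod, ← Finset.prod_range_reflect]
  refine Finset.prod_congr rfl fun j hj => ?_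
  have h : j < i := Finset.mem_range.1 hj
  have h1 : ((i - 1 - j : ℕ) : ℝ) = (i : ℝ) - 1 - j := by
    rw [Nat.cast_sub (by omega), Nat.cast_sub (by omega), Nat.cast_one]
  push_cast
  rw [h1]
  ring

lemma prod_sub_right (i d : ℕ) :
    ∏ j ∈ Finset.Ico (i + 1) (i + 1 + d), ((j : ℝ) - i) = d.factorial := by
  rw [Finset.prod_Ico_eq_prod_range, ← Finset.prod_range_add_one_eq_factorial, Nat.cast_prod,
    Nat.add_sub_cancel_left]
  refine Finset.prod_congr rfl fun j _ => ?_
  push_cast
  ring

lemma prod_nodes {d i : ℕ} (hi : i ≤ d) :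
    ∏ j ∈ (Finset.range (d + 1)).erase i, |(i : ℝ) - j| = i.factorial * (d - i).factorial := by
  have h1 : (Finset.range (d + 1)).erase i
      = Finset.range i ∪ Finset.Ico (i + 1) (i + 1 + (d - i)) := by
    ext j
    simp only [Finset.mem_erase, Finset.mem_range, Finset.mem_union, Finset.mem_Ico]
    omega
  have h2 : Disjoint (Finset.range i) (Finset.Ico (i + 1) (i + 1 + (d - i))) := by
    rw [Finset.disjoint_left]
    intro j h3 h4
    simp only [Finset.mem_range, Finset.mem_Ico] at h3 h4
    omega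
  rw [h1, Finset.prod_union h2, ← prod_sub_left i, ← prod_sub_right i (d - i)]
  congr 1
  · refine Finset.prod_congr rfl fun j hj => ?_
    have h : j < i := Finset.mem_range.1 hj
    have h' : (j : ℝ) < i := by exact_mod_cast h
    rw [abs_of_pos (by linarith)]
  · refine Finset.prod_congr rfl fun j hj => ?_
    have h : i + 1 ≤ j := (Finset.mem_Ico.1 hj).1
    have h' : (i : ℝ) + 1 ≤ j := by exact_mod_cast h
    rw [abs_of_neg (by linarith)]
    ring

/-- A polynomial of degree at most `d`, bounded by `B` on `[a, b]`, is bounded by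
`B C ^ (d + 1)` on the disc of radius `R`. -/
theorem poly_ext {a b : ℝ} (hab : a < b) (R : ℝ) : ∃ C : ℝ, 1 ≤ C ∧ ∀ (d : ℕ) (p : ℂ[X]),
    p.natDegree ≤ d → ∀ B : ℝ, 0 ≤ B → (∀ x : ℝ, a ≤ x → x ≤ b → ‖p.eval (x : ℂ)‖ ≤ B) →
      ∀ z : ℂ, ‖z‖ ≤ R → ‖p.eval z‖ ≤ B * C ^ (d + 1) := by
  set R' : ℝ := |R| + |a| + |b| + 1 with hR'
  have hR'0 : 0 < R' := by positivity
  set C : ℝ := max 2 (2 * R' * 2 * Real.exp 1 / (b - a)) with hC
  refine ⟨C, le_trans (by norm_num) (le_max_left _ _), ?_⟩
  intro d p hp B hB hx z hz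
  have hC2 : (2 : ℝ) ≤ C := le_max_left _ _
  rcases Nat.eq_zero_or_pos d with hd | hd
  · subst hd
    have h1 : p.natDegree = 0 := by omega
    rw [Polynomial.eq_C_of_natDegree_eq_zero h1] at hx ⊢
    simp only [eval_C] at hx ⊢
    have h2 := hx a le_rfl hab.le
    rw [zero_add, pow_one]
    exact h2.trans (le_mul_of_one_le_right hB (by linarith))
  have hdpos : (0 : ℝ) < d := by exact_mod_cast hd
  set h : ℝ := (b - a) / d with hh
  have hhpos : 0 < h := div_pos (by linarith) hdpos
  set v : ℕ → ℂ := fun i => ((a + i * h : ℝ) : ℂ) with hv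
  have hinj : Set.InjOn v (Finset.range (d + 1) : Finset ℕ) := by
    intro i _ j _ hij
    have h1 : a + i * h = a + j * h := Complex.ofReal_injective hij
    have h2 : (i : ℝ) * h = j * h := by linarith
    have h3 : (i : ℝ) = j := mul_right_cancel₀ hhpos.ne' h2
    exact_mod_cast h3
  have hdeg : p.degree < (Finset.range (d + 1)).card := by
    rw [Finset.card_range]
    refine lt_of_le_of_lt (Polynomial.degree_le_natDegree) ?_
    exact_mod_cast Nat.lt_succ_of_le hp
  have hint := Lagrange.eq_interpolate hinj hdeg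
  have heval : p.eval z = ∑ i ∈ Finset.range (d + 1),
      p.eval (v i) * (Lagrange.basis (Finset.range (d + 1)) v i).eval z := by
    conv_lhs => rw [hint]
    rw [Lagrange.interpolate_apply, eval_finsetSum]
    refine Finset.sum_congr rfl fun i _ => ?_
    rw [eval_mul, eval_C]
  -- the basis polynomials
  have hbas : ∀ i ∈ Finset.range (d + 1),
      ‖(Lagrange.basis (Finset.range (d + 1)) v i).eval z‖ ≤ (R' * 2 * Real.exp 1 / (b - a)) ^ d := by
    intro i hi
    have hid : i ≤ d := Nat.lt_succ_iff.1 (Finset.mem_range.1 hi)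
    have h1 : (Lagrange.basis (Finset.range (d + 1)) v i).eval z
        = ∏ j ∈ (Finset.range (d + 1)).erase i, ((v i - v j)⁻¹ * (z - v j)) := by
      unfold Lagrange.basis
      rw [eval_prod]
      refine Finset.prod_congr rfl fun j _ => ?_
      simp [Lagrange.basisDivisor]
    have hcard : ((Finset.range (d + 1)).erase i).card = d := by
      rw [Finset.card_erase_of_mem hi, Finset.card_range]
      omega
    have h2 : ∀ j ∈ (Finset.range (d + 1)).erase i,
        ‖(v i - v j)⁻¹ * (z - v j)‖ ≤ (R' / h) * |(i : ℝ) - j|⁻¹ := by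
      intro j hj
      have hj1 : j ∈ Finset.range (d + 1) := Finset.mem_of_mem_erase hj
      have hjd : j ≤ d := Nat.lt_succ_iff.1 (Finset.mem_range.1 hj1)
      have hvv : v i - v j = ((((i : ℝ) - j) * h : ℝ) : ℂ) := by
        simp only [hv]
        push_cast
        ring
      have hjh : (j : ℝ) * h ≤ b - a := by
        have : (j : ℝ) ≤ d := by exact_mod_cast hjd
        rw [hh]
        rw [mul_div_assoc', div_le_iff₀ hdpos]
        nlinarith
      have hvj : ‖v j‖ ≤ |a| + |b| := by
        simp only [hv]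
        rw [Complex.norm_real, Real.norm_eq_abs, abs_le]
        have h5 : 0 ≤ (j : ℝ) * h := by positivity
        have h6 := neg_abs_le a
        have h7 := le_abs_self b
        have h8 := abs_nonneg b
        have h9 := abs_nonneg a
        constructor <;> linarith
      have hzv : ‖z - v j‖ ≤ R' := by
        refine (norm_sub_le _ _).trans ?_
        have := le_abs_self R
        linarith
      rw [norm_mul, norm_inv, hvv, Complex.norm_real, Real.norm_eq_abs, abs_mul,
        abs_of_pos hhpos, mul_inv]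
      calc |(i : ℝ) - j|⁻¹ * h⁻¹ * ‖z - v j‖ ≤ |(i : ℝ) - j|⁻¹ * h⁻¹ * R' := by
            gcongr
        _ = R' / h * |(i : ℝ) - j|⁻¹ := by
            rw [div_eq_mul_inv]; ring
    rw [h1, norm_prod]
    refine (Finset.prod_le_prod (fun j _ => norm_nonneg _) h2).trans ?_
    rw [Finset.prod_mul_distrib, Finset.prod_const, hcard, Finset.prod_inv_distrib,
      prod_nodes hid]
    -- `(R'/h)^d * (i! (d-i)!)⁻¹ ≤ ...`
    have h3 : (d.factorial : ℝ) ≤ 2 ^ d * (i.factorial * (d - i).factorial) := by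
      have h4 := Nat.choose_mul_factorial_mul_factorial hid
      have h5 : d.choose i ≤ 2 ^ d := Nat.choose_le_two_pow d i
      have h6 : d.factorial ≤ 2 ^ d * (i.factorial * (d - i).factorial) := by
        rw [← h4, mul_assoc]
        exact Nat.mul_le_mul_right _ h5
      exact_mod_cast h6
    have h7 : (d : ℝ) ^ d ≤ Real.exp 1 ^ d * d.factorial := by
      have h8 := Real.pow_div_factorial_le_exp (d : ℝ) hdpos.le d
      rw [div_le_iff₀ (by positivity)] at h8
      rw [← Real.exp_nat_mul, mul_one]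
      exact h8
    have hpos1 : (0 : ℝ) < i.factorial * (d - i).factorial := by positivity
    have hba : 0 < b - a := by linarith
    rw [← div_eq_mul_inv, div_le_iff₀ hpos1, hh, div_pow, div_pow, div_pow]
    rw [div_div_eq_mul_div, div_mul_eq_mul_div]
    rw [div_le_div_iff_of_pos_right (by positivity)]
    rw [mul_pow, mul_pow]
    calc R' ^ d * (d : ℝ) ^ d ≤ R' ^ d * (Real.exp 1 ^ d * d.factorial) := by gcongr
      _ ≤ R' ^ d * (Real.exp 1 ^ d * (2 ^ d * (i.factorial * (d - i).factorial))) := by gcongr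
      _ = R' ^ d * 2 ^ d * Real.exp 1 ^ d * (i.factorial * (d - i).factorial) := by ring
  have hval : ∀ i ∈ Finset.range (d + 1), ‖p.eval (v i)‖ ≤ B := by
    intro i hi
    have hid : i ≤ d := Nat.lt_succ_iff.1 (Finset.mem_range.1 hi)
    apply hx
    · have : 0 ≤ (i : ℝ) * h := by positivity
      linarith
    · have h1 : (i : ℝ) ≤ d := by exact_mod_cast hid
      have h2 : (i : ℝ) * h ≤ b - a := by
        rw [hh, mul_div_assoc', div_le_iff₀ hdpos]
        nlinarith
      linarith
  rw [heval]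
  refine (norm_sum_le _ _).trans ?_
  have h3 : ∀ i ∈ Finset.range (d + 1),
      ‖p.eval (v i) * (Lagrange.basis (Finset.range (d + 1)) v i).eval z‖
        ≤ B * (R' * 2 * Real.exp 1 / (b - a)) ^ d := by
    intro i hi
    rw [norm_mul]
    exact mul_le_mul (hval i hi) (hbas i hi) (norm_nonneg _) hB
  refine (Finset.sum_le_sum h3).trans ?_
  rw [Finset.sum_const, Finset.card_range, nsmul_eq_mul]
  have hba : 0 < b - a := by linarith
  set q : ℝ := R' * 2 * Real.exp 1 / (b - a) with hq
  have hq0 : 0 ≤ q := by positivity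
  have hCq : 2 * q ≤ C := by
    refine le_trans (le_of_eq ?_) (le_max_right _ _)
    rw [hq]; ring
  have h4 : ((d + 1 : ℕ) : ℝ) ≤ 2 ^ d := by
    exact_mod_cast (Nat.lt_two_pow_self (n := d))
  calc ((d + 1 : ℕ) : ℝ) * (B * q ^ d) ≤ 2 ^ d * (B * q ^ d) := by gcongr
    _ = B * (2 * q) ^ d := by rw [mul_pow]; ring
    _ ≤ B * C ^ d := by gcongr
    _ ≤ B * C ^ (d + 1) := by
        have h5 : (1 : ℝ) ≤ C := by linarith
        have h6 : C ^ d ≤ C ^ (d + 1) := pow_le_pow_right₀ h5 (by omega)
        exact mul_le_mul_of_nonneg_left h6 hB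

/-- An entire function of polynomial growth is a polynomial. -/
theorem poly_of_growth {G : ℂ → ℂ} (hG : Differentiable ℂ G) {M : ℝ} {d : ℕ}
    (hb : ∀ R : ℝ, 1 ≤ R → ∀ z, ‖z‖ ≤ R → ‖G z‖ ≤ M * R ^ d) :
    ∃ p : ℂ[X], p.natDegree ≤ d ∧ ∀ z, G z = p.eval z := by
  have hM : 0 ≤ M := by
    have h1 := hb 1 le_rfl 0 (by simp)
    rw [one_pow, mul_one] at h1
    exact (norm_nonneg _).trans h1
  have h0 : ∀ n, d < n → iteratedDeriv n G 0 = 0 := by
    intro n hn
    by_contra hne
    have hpos : 0 < ‖iteratedDeriv n G 0‖ := norm_pos_iff.2 hne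
    have h1 : ∀ R : ℝ, 1 ≤ R → ‖iteratedDeriv n G 0‖ ≤ n.factorial * (M * R ^ d) / R ^ n := by
      intro R hR
      apply Complex.norm_iteratedDeriv_le_of_forall_mem_sphere_norm_le n (by linarith)
        hG.diffContOnCl
      intro z hz
      apply hb R hR
      simpa using hz.le
    set K : ℝ := n.factorial * M with hK
    have hK0 : 0 ≤ K := by positivity
    have h2 : ∀ R : ℝ, 1 ≤ R → ‖iteratedDeriv n G 0‖ * R ≤ K := by
      intro R hR
      have h3 := h1 R hR
      have hR0 : 0 < R := by linarith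
      rw [le_div_iff₀ (by positivity)] at h3
      have h4 : R ^ (d + 1) ≤ R ^ n := pow_le_pow_right₀ hR hn
      have h5 : ‖iteratedDeriv n G 0‖ * R * R ^ d ≤ K * R ^ d := by
        calc ‖iteratedDeriv n G 0‖ * R * R ^ d = ‖iteratedDeriv n G 0‖ * R ^ (d + 1) := by ring
          _ ≤ ‖iteratedDeriv n G 0‖ * R ^ n := by gcongr
          _ ≤ n.factorial * (M * R ^ d) := h3
          _ = K * R ^ d := by rw [hK]; ring
      exact le_of_mul_le_mul_right h5 (by positivity)
    have h6 := h2 (K / ‖iteratedDeriv n G 0‖ + 1) (by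
      have : 0 ≤ K / ‖iteratedDeriv n G 0‖ := by positivity
      linarith)
    rw [mul_add, mul_div_cancel₀ _ hpos.ne', mul_one] at h6
    linarith
  refine ⟨∑ n ∈ Finset.range (d + 1), Polynomial.monomial n
    ((n.factorial : ℂ)⁻¹ * iteratedDeriv n G 0), ?_, ?_⟩
  · apply Polynomial.natDegree_sum_le_of_forall_le
    intro n hn
    refine (Polynomial.natDegree_monomial_le _).trans ?_
    exact Nat.lt_succ_iff.1 (Finset.mem_range.1 hn)
  · intro z
    have h1 := Complex.hasSum_taylorSeries_of_entire hG 0 z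
    have h2 : HasSum (fun n => (n.factorial : ℂ)⁻¹ • (z - 0) ^ n • iteratedDeriv n G 0)
        (∑ n ∈ Finset.range (d + 1),
          (n.factorial : ℂ)⁻¹ • (z - 0) ^ n • iteratedDeriv n G 0) := by
      apply hasSum_sum_of_ne_finset_zero
      intro n hn
      have h3 : d < n := by
        by_contra hcon
        exact hn (Finset.mem_range.2 (by omega))
      rw [h0 n h3, smul_zero, smul_zero]
    rw [h1.unique h2, eval_finsetSum]
    refine Finset.sum_congr rfl fun n _ => ?_
    rw [eval_monomial, sub_zero, smul_eq_mul, smul_eq_mul]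
    ring

/-- The second derivative is nonpositive at a local maximum. -/
lemma sec_nonpos {ψ ψ' : ℝ → ℝ} {c : ℝ} (h1 : ∀ h, HasDerivAt ψ (ψ' h) h)
    (h2 : HasDerivAt ψ' c 0) (hmax : IsLocalMax ψ 0) : c ≤ 0 := by
  by_contra hc
  push Not at hc
  have hd : deriv ψ = ψ' := funext fun h => (h1 h).deriv
  have hd2 : deriv (deriv ψ) 0 = c := by rw [hd]; exact h2.deriv
  have h3 : deriv ψ 0 = 0 := hmax.deriv_eq_zero
  have hmin : IsLocalMin ψ 0 :=
    isLocalMin_of_deriv_deriv_pos (by rw [hd2]; exact hc) h3 (h1 0).continuousAt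
  have h4 : ψ =ᶠ[nhds 0] fun _ => ψ 0 := by
    filter_upwards [hmax, hmin] with x hx hx'
    exact le_antisymm hx hx'
  have h5 : deriv (deriv ψ) 0 = 0 := by
    rw [h4.deriv.deriv_eq]
    simp
  rw [hd2] at h5
  linarith

/-- The derivative is nonnegative at a maximum from the left. -/
lemma der_nonneg {ψ : ℝ → ℝ} {c : ℝ} (h1 : HasDerivAt ψ c 0)
    (hmax : ∀ᶠ h in nhdsWithin 0 (Set.Iio 0), ψ h ≤ ψ 0) : 0 ≤ c := by
  have h2 := h1.hasDerivWithinAt (s := Set.Iio 0)
  rw [hasDerivWithinAt_iff_tendsto_slope' (by simp)] at h2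
  apply ge_of_tendsto h2
  filter_upwards [hmax, self_mem_nhdsWithin] with h hh hneg
  rw [slope_def_field, sub_zero]
  exact div_nonneg_of_nonpos (by linarith) (le_of_lt hneg)

end Pool.Agent.H77.FB2
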