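import Pool.Agent.H77.FB2.Ext
import Pool.Agent.H60.FB.Ent

/-!
The parabolic maximum principle for an entire function `u` which vanishes on the real paraboloid
`∑ s_i x_i² = b t`.
-/

open Pool.Agent.H77.FB Pool.Agent.H60.FB

namespace Pool.Agent.H77.FB2

variable {k : ℕ}

/-- A real point, as a complex one. -/
def rc {n : ℕ} (y : Fin n → ℝ) : Fin n → ℂ := fun j => (y j : ℂ)

lemma rc_add_single {n : ℕ} (y : Fin n → ℝ) (j : Fin n) (h : ℝ) :
    rc (y + h • Pi.single j 1) = rc y + (h : ℂ) • Pi.single j 1 := by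
  funext i
  simp only [rc, Pi.add_apply, Pi.smul_apply, smul_eq_mul, Complex.ofReal_add, Complex.ofReal_mul]
  congr 2
  by_cases hij : i = j
  · subst hij; simp
  · simp [Pi.single_eq_of_ne hij]

lemma continuous_rc {n : ℕ} : Continuous (rc (n := n)) :=
  continuous_pi fun j => Complex.continuous_ofReal.comp (continuous_apply j)

/-- The derivative of an entire function along a coordinate line. -/
lemma hasDerivAt_line {n : ℕ} {u : (Fin n → ℂ) → ℂ} (hu : Differentiable ℂ u) (z : Fin n → ℂ)
    (j : Fin n) (l : ℂ) :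
    HasDerivAt (fun l : ℂ => u (z + l • Pi.single j 1)) (D j u (z + l • Pi.single j 1)) l := by
  have h3 : HasDerivAt (fun c : ℂ => z + c • (Pi.single j 1 : Fin n → ℂ)) (Pi.single j 1) l := by
    have := ((hasDerivAt_id l).smul_const (Pi.single j 1 : Fin n → ℂ)).const_add z
    simpa using this
  exact (hu (z + l • Pi.single j 1)).hasFDerivAt.comp_hasDerivAt l h3

/-- The real function `h ↦ Re (w u(y + h e_j))`. -/
lemma hasDerivAt_re {n : ℕ} {u : (Fin n → ℂ) → ℂ} (hu : Differentiable ℂ u) (y : Fin n → ℝ)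
    (j : Fin n) (w : ℂ) (h : ℝ) :
    HasDerivAt (fun h : ℝ => (w * u (rc (y + h • Pi.single j 1))).re)
      (w * D j u (rc (y + h • Pi.single j 1))).re h := by
  have h1 := (hasDerivAt_line hu (rc y) j (h : ℂ)).const_mul w
  have h2 := h1.real_of_complex
  simpa only [rc_add_single] using h2

/-- The real paraboloid body. -/
def Om (s : Fin k → ℝ) (b T : ℝ) : Set (Fin (k + 1) → ℝ) :=
  {y | ∑ i, s i * y i.castSucc ^ 2 ≤ b * y (Fin.last k) ∧ y (Fin.last k) ≤ T}

lemma Om_nonneg {s : Fin k → ℝ} (hs : ∀ i, 0 < s i) {b T : ℝ} (hb : 0 < b)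
    {y : Fin (k + 1) → ℝ} (hy : y ∈ Om s b T) : 0 ≤ y (Fin.last k) := by
  have h1 : 0 ≤ ∑ i, s i * y i.castSucc ^ 2 :=
    Finset.sum_nonneg fun i _ => mul_nonneg (hs i).le (sq_nonneg _)
  have h2 := h1.trans hy.1
  exact nonneg_of_mul_nonneg_right h2 hb

lemma isCompact_Om {s : Fin k → ℝ} (hs : ∀ i, 0 < s i) {b : ℝ} (hb : 0 < b) (T : ℝ) :
    IsCompact (Om s b T) := by
  have hcl : IsClosed (Om s b T) := by
    have h1 : IsClosed {y : Fin (k + 1) → ℝ | ∑ i, s i * y i.castSucc ^ 2
        ≤ b * y (Fin.last k)} := isClosed_le (by fun_prop) (by fun_prop)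
    have h2 : IsClosed {y : Fin (k + 1) → ℝ | y (Fin.last k) ≤ T} :=
      isClosed_le (by fun_prop) (by fun_prop)
    exact h1.inter h2
  -- bounded: each coordinate is bounded
  set M : Fin (k + 1) → ℝ := Fin.lastCases (motive := fun _ => ℝ) T
    (fun i => b * T / s i + 1) with hM
  refine IsCompact.of_isClosed_subset (isCompact_univ_pi fun j => isCompact_Icc (a := -(M j))
    (b := M j)) hcl ?_
  intro y hy j _
  have ht := Om_nonneg hs hb hy
  have hT : 0 ≤ T := ht.trans hy.2
  refine Fin.lastCases ?_ (fun i => ?_) j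
  · simp only [hM, Fin.lastCases_last]
    exact ⟨by linarith, hy.2⟩
  · simp only [hM, Fin.lastCases_castSucc]
    have h1 : s i * y i.castSucc ^ 2 ≤ b * T := by
      refine le_trans (Finset.single_le_sum
        (fun i _ => mul_nonneg (hs i).le (sq_nonneg (y i.castSucc))) (Finset.mem_univ i)) ?_
      exact hy.1.trans (mul_le_mul_of_nonneg_left hy.2 hb.le)
    have h2 : y i.castSucc ^ 2 ≤ b * T / s i := by
      rw [le_div_iff₀ (hs i)]; linarith
    have h3 : |y i.castSucc| ≤ b * T / s i + 1 := by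
      have h4 : y i.castSucc ^ 2 = |y i.castSucc| ^ 2 := (sq_abs _).symm
      have h5 := abs_nonneg (y i.castSucc)
      nlinarith
    exact abs_le.1 h3

/-- The maximum principle. -/
theorem maxp {s : Fin k → ℝ} (hs : ∀ i, 0 < s i) {b : ℝ} (hb : 0 < b) {T : ℝ}
    {u : (Fin (k + 1) → ℂ) → ℂ} (hu : Differentiable ℂ u)
    (h0 : ∀ y : Fin (k + 1) → ℝ, ∑ i, s i * y i.castSucc ^ 2 = b * y (Fin.last k) →
      u (rc y) = 0) {A : ℝ}
    (hA : ∀ y ∈ Om s b T, ‖∑ i, (s i : ℂ) * D i.castSucc (D i.castSucc u) (rc y)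
      - b * D (Fin.last k) u (rc y)‖ ≤ A) :
    ∀ y ∈ Om s b T, ‖u (rc y)‖ ≤ A / b * y (Fin.last k) := by
  intro y0 hy0
  have hA0 : 0 ≤ A := (norm_nonneg _).trans (hA y0 hy0)
  have ht0 := Om_nonneg hs hb hy0
  by_cases hu0 : u (rc y0) = 0
  · rw [hu0, norm_zero]; positivity
  -- the unit vector
  set w : ℂ := (starRingEnd ℂ) (u (rc y0)) / ‖u (rc y0)‖ with hw
  have hn0 : (‖u (rc y0)‖ : ℂ) ≠ 0 := by
    rw [Ne, Complex.ofReal_eq_zero]; exact norm_ne_zero_iff.2 hu0
  have hw1 : ‖w‖ = 1 := by
    rw [hw, norm_div, Complex.norm_conj, Complex.norm_real, norm_norm,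
      div_self (norm_ne_zero_iff.2 hu0)]
  have hwu : w * u (rc y0) = ‖u (rc y0)‖ := by
    rw [hw, div_mul_eq_mul_div, mul_comm ((starRingEnd ℂ) _), Complex.mul_conj,
      Complex.normSq_eq_norm_sq, div_eq_iff hn0]
    push_cast
    ring
  have hmain : ∀ ε > (0 : ℝ), (w * u (rc y0)).re ≤ (A / b + ε) * y0 (Fin.last k) := by
    intro ε hε
    set M : (Fin (k + 1) → ℝ) → ℝ :=
      fun y => (w * u (rc y)).re - (A / b + ε) * y (Fin.last k) with hM
    have hMc : Continuous M := by
      have h1 : Continuous fun y : Fin (k + 1) → ℝ => u (rc y) := hu.continuous.comp continuous_rc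
      have h2 : Continuous fun y : Fin (k + 1) → ℝ => (w * u (rc y)).re :=
        Complex.continuous_re.comp (continuous_const.mul h1)
      exact h2.sub (continuous_const.mul (continuous_apply _))
    obtain ⟨y1, hy1, hmax⟩ := (isCompact_Om hs hb T).exists_isMaxOn ⟨y0, hy0⟩ hMc.continuousOn
    by_contra hcon
    push Not at hcon
    have hpos : 0 < M y1 := by
      have h1 : M y0 ≤ M y1 := hmax hy0
      have h2 : 0 < M y0 := by simp only [hM]; linarith
      linarith
    have ht1 := Om_nonneg hs hb hy1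
    -- not on the lateral boundary
    have hlt : ∑ i, s i * y1 i.castSucc ^ 2 < b * y1 (Fin.last k) := by
      refine lt_of_le_of_ne hy1.1 fun heq => ?_
      have h1 := h0 y1 heq
      simp only [hM, h1, mul_zero, Complex.zero_re, zero_sub] at hpos
      have : 0 ≤ (A / b + ε) * y1 (Fin.last k) := by positivity
      linarith
    -- neighbourhoods
    have hopen : ∀ j : Fin (k + 1), ∀ᶠ h : ℝ in nhds 0,
        ∑ i, s i * (y1 + h • (Pi.single j 1 : Fin (k + 1) → ℝ)) i.castSucc ^ 2
          < b * (y1 + h • (Pi.single j 1 : Fin (k + 1) → ℝ)) (Fin.last k) := by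
      intro j
      have hc1 : Continuous fun h : ℝ =>
          ∑ i, s i * (y1 + h • (Pi.single j 1 : Fin (k + 1) → ℝ)) i.castSucc ^ 2 := by fun_prop
      have hc2 : Continuous fun h : ℝ =>
          b * (y1 + h • (Pi.single j 1 : Fin (k + 1) → ℝ)) (Fin.last k) := by fun_prop
      apply (isOpen_lt hc1 hc2).mem_nhds
      simpa using hlt
    -- second derivatives
    have hsec : ∀ i : Fin k, (w * D i.castSucc (D i.castSucc u) (rc y1)).re ≤ 0 := by
      intro i
      have h1 := fun h : ℝ => hasDerivAt_re hu y1 i.castSucc w h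
      have h2 := hasDerivAt_re (differentiable_D hu i.castSucc) y1 i.castSucc w 0
      rw [zero_smul, add_zero] at h2
      refine sec_nonpos h1 h2 ?_
      filter_upwards [hopen i.castSucc] with h hh
      have hlast : (y1 + h • (Pi.single i.castSucc 1 : Fin (k + 1) → ℝ)) (Fin.last k)
          = y1 (Fin.last k) := by
        simp
      have h3 : (y1 + h • Pi.single i.castSucc 1) ∈ Om s b T :=
        ⟨hh.le, by rw [hlast]; exact hy1.2⟩
      have h4 : M (y1 + h • Pi.single i.castSucc 1) ≤ M y1 := hmax h3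
      simp only [hM, hlast] at h4
      rw [zero_smul, add_zero]
      linarith
    -- the time derivative
    have htime : A / b + ε ≤ (w * D (Fin.last k) u (rc y1)).re := by
      have h1 := hasDerivAt_re hu y1 (Fin.last k) w 0
      rw [zero_smul, add_zero] at h1
      have h2 : HasDerivAt (fun h : ℝ => (w * u (rc (y1 + h • Pi.single (Fin.last k) 1))).re
          - (A / b + ε) * (y1 (Fin.last k) + h))
          ((w * D (Fin.last k) u (rc y1)).re - (A / b + ε)) 0 := by
        have h3 : HasDerivAt (fun h : ℝ => (A / b + ε) * (y1 (Fin.last k) + h))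
            (A / b + ε) 0 := by
          have := ((hasDerivAt_id (0 : ℝ)).const_add (y1 (Fin.last k))).const_mul (A / b + ε)
          simpa using this
        exact h1.sub h3
      have h4 := der_nonneg h2 (by
        have h5 := (hopen (Fin.last k)).filter_mono
          (nhdsWithin_le_nhds (s := Set.Iio (0 : ℝ)))
        filter_upwards [h5, self_mem_nhdsWithin] with h hh hneg
        have hneg' : h < 0 := hneg
        have hlast : (y1 + h • (Pi.single (Fin.last k) 1 : Fin (k + 1) → ℝ)) (Fin.last k)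
            = y1 (Fin.last k) + h := by simp
        have h6 : (y1 + h • Pi.single (Fin.last k) 1) ∈ Om s b T :=
          ⟨hh.le, by rw [hlast]; linarith [hy1.2]⟩
        have h7 : M (y1 + h • Pi.single (Fin.last k) 1) ≤ M y1 := hmax h6
        simp only [hM, hlast] at h7
        rw [zero_smul, add_zero, add_zero]
        exact h7)
      linarith
    -- conclusion
    have hA1 := hA y1 hy1
    set V : ℂ := ∑ i, (s i : ℂ) * D i.castSucc (D i.castSucc u) (rc y1)
      - b * D (Fin.last k) u (rc y1) with hV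
    have hre : (w * V).re ≤ -(A + b * ε) := by
      have h1 : (w * V).re = ∑ i, s i * (w * D i.castSucc (D i.castSucc u) (rc y1)).re
          - b * (w * D (Fin.last k) u (rc y1)).re := by
        rw [hV, mul_sub, Finset.mul_sum, Complex.sub_re, Complex.re_sum]
        congr 1
        · refine Finset.sum_congr rfl fun i _ => ?_
          rw [mul_left_comm, Complex.re_ofReal_mul]
        · rw [mul_left_comm, Complex.re_ofReal_mul]
      rw [h1]
      have h2 : ∑ i, s i * (w * D i.castSucc (D i.castSucc u) (rc y1)).re ≤ 0 :=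
        Finset.sum_nonpos fun i _ => mul_nonpos_of_nonneg_of_nonpos (hs i).le (hsec i)
      have h3 : b * (A / b + ε) ≤ b * (w * D (Fin.last k) u (rc y1)).re :=
        mul_le_mul_of_nonneg_left htime hb.le
      have h4 : b * (A / b + ε) = A + b * ε := by field_simp
      linarith
    have h1 : |(w * V).re| ≤ ‖w * V‖ := Complex.abs_re_le_norm _
    rw [norm_mul, hw1, one_mul] at h1
    have h2 : A + b * ε ≤ |(w * V).re| := by
      have := neg_le_abs (w * V).re
      linarith
    have h3 : 0 < b * ε := by positivity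
    linarith
  -- let ε go to 0
  have hfin : (w * u (rc y0)).re ≤ A / b * y0 (Fin.last k) := by
    apply le_of_forall_pos_le_add
    intro δ hδ
    have h1 := hmain (δ / (y0 (Fin.last k) + 1)) (by positivity)
    have h2 : δ / (y0 (Fin.last k) + 1) * y0 (Fin.last k) ≤ δ := by
      rw [div_mul_eq_mul_div, div_le_iff₀ (by linarith)]
      nlinarith
    linarith
  rw [hwu, Complex.ofReal_re] at hfin
  exact hfin

end Pool.Agent.H77.FB2
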