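import Pool.Agent.H77.FB2.Wt

/-!
The a priori estimate for the polynomials `∑ s_i x_i^2 - b t`, with `s_i > 0` and `b > 0`.
-/

open MvPolynomial MeasureTheory Pool.Agent.H77.FB Pool.Agent.H60.FB

namespace Pool.Agent.H77.FB2

variable {k : ℕ}

/-- The polynomial `∑ s_i x_i^2 - b t`. -/
noncomputable def par (s : Fin k → ℝ) (b : ℝ) : MvPolynomial (Fin (k + 1)) ℂ :=
  ∑ i, C (s i : ℂ) * X i.castSucc ^ 2 - C (b : ℂ) * X (Fin.last k)

lemma eval_par (s : Fin k → ℝ) (b : ℝ) (z : Fin (k + 1) → ℂ) :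
    eval z (par s b) = ∑ i, (s i : ℂ) * z i.castSucc ^ 2 - b * z (Fin.last k) := by
  simp [par]

/-- The weights. -/
def pw (k : ℕ) : Fin (k + 1) → ℕ := fun j => if j = Fin.last k then 2 else 1

lemma pw_last : pw k (Fin.last k) = 2 := by simp [pw]

lemma pw_castSucc (i : Fin k) : pw k i.castSucc = 1 := by simp [pw, Fin.ext_iff, i.isLt.ne]

lemma one_le_pw (j : Fin (k + 1)) : 1 ≤ pw k j := by
  unfold pw; split_ifs <;> norm_num

lemma eval_par_act (s : Fin k → ℝ) (b : ℝ) (c : ℂ) (z : Fin (k + 1) → ℂ) :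
    eval (act (pw k) c z) (par s b) = c ^ 2 * eval z (par s b) := by
  rw [eval_par, eval_par]
  simp only [act, pw_last, pw_castSucc, mul_sub, Finset.mul_sum]
  congr 1
  · refine Finset.sum_congr rfl fun i _ => by ring
  · ring

lemma eval_star_par (s : Fin k → ℝ) (b : ℝ) (z : Fin (k + 1) → ℂ) :
    eval z (star' (par s b)) = eval z (par s b) := by
  rw [eval_star', eval_par, eval_par]
  simp [cj]

/-- The operator `∑ s_i D_i^2 - b D_t`. -/
noncomputable def heatE (s : Fin k → ℝ) (b : ℝ) : Ent (k + 1) →ₗ[ℂ] Ent (k + 1) :=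
  ∑ i, (s i : ℂ) • DLE [i.castSucc, i.castSucc] - (b : ℂ) • DLE [Fin.last k]

lemma heatE_apply (s : Fin k → ℝ) (b : ℝ) (f : Ent (k + 1)) (z : Fin (k + 1) → ℂ) :
    (heatE s b f).1 z = ∑ i, (s i : ℂ) * D i.castSucc (D i.castSucc f.1) z
      - b * D (Fin.last k) f.1 z := by
  unfold heatE
  rw [LinearMap.sub_apply, LinearMap.sum_apply]
  change (∑ i, ((s i : ℂ) • DLE [i.castSucc, i.castSucc]) f : Ent (k + 1)).1 z - _ = _
  rw [coe_sum]
  rfl

lemma heatE_bound (s : Fin k → ℝ) (b : ℝ) (z : Fin (k + 1) → ℂ) :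
    ∃ R C : ℝ, ∀ f : Ent (k + 1), ∀ K : ℝ, (∀ z, ‖z‖ ≤ R → ‖f.1 z‖ ≤ K) →
      ‖(heatE s b f).1 z‖ ≤ C * K := by
  refine ⟨‖z‖ + 2, ∑ i, |s i| + |b|, fun f K hK => ?_⟩
  rw [heatE_apply, add_mul, Finset.sum_mul]
  refine (norm_sub_le _ _).trans (add_le_add ((norm_sum_le _ _).trans
    (Finset.sum_le_sum fun i _ => ?_)) ?_)
  · rw [norm_mul, Complex.norm_real, Real.norm_eq_abs]
    refine mul_le_mul_of_nonneg_left ?_ (abs_nonneg _)
    exact DLE_bound [i.castSucc, i.castSucc] f ‖z‖ K (fun w hw => hK w (by simpa using hw)) z le_rfl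
  · rw [norm_mul, Complex.norm_real, Real.norm_eq_abs]
    refine mul_le_mul_of_nonneg_left ?_ (abs_nonneg _)
    refine DLE_bound [Fin.last k] f ‖z‖ K (fun w hw => hK w (hw.trans ?_)) z le_rfl
    simp

lemma QD_par (s : Fin k → ℝ) (b : ℝ) (f : Ent (k + 1)) (z : Fin (k + 1) → ℂ) :
    QD (star' (par s b)) 1 f.1 z = ∑ i, (s i : ℂ) * D i.castSucc (D i.castSucc f.1) z
      - b * D (Fin.last k) f.1 z := by
  rw [← QDE_eq, ← heatE_apply]
  refine op_ext (fun z => ?_) (heatE_bound s b) (fun w => ?_) f z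
  · exact ⟨‖z‖ + (star' (par s b)).totalDegree, _, fun f K hK =>
      QDE_bound _ f ‖z‖ K hK z le_rfl⟩
  · rw [QDE_expo, eval_star_par, eval_par]
    unfold heatE
    rw [LinearMap.sub_apply, LinearMap.sum_apply]
    simp only [LinearMap.smul_apply, DLE_expo, List.map_cons, List.map_nil, List.prod_cons,
      List.prod_nil, mul_one, smul_smul]
    rw [← Finset.sum_smul, ← sub_smul]
    congr 1
    congr 1
    refine Finset.sum_congr rfl fun i _ => by ring

/-- The dilations and the operator. -/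
lemma heat_act (s : Fin k → ℝ) (b : ℝ) {u : (Fin (k + 1) → ℂ) → ℂ} (hu : Differentiable ℂ u)
    (c : ℂ) (z : Fin (k + 1) → ℂ) :
    ∑ i, (s i : ℂ) * D i.castSucc (D i.castSucc (fun z => u (act (pw k) c z))) z
      - b * D (Fin.last k) (fun z => u (act (pw k) c z)) z
    = c ^ 2 * (∑ i, (s i : ℂ) * D i.castSucc (D i.castSucc u) (act (pw k) c z)
      - b * D (Fin.last k) u (act (pw k) c z)) := by
  have h1 : ∀ i : Fin k, D i.castSucc (D i.castSucc (fun z => u (act (pw k) c z))) z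
      = c ^ 2 * D i.castSucc (D i.castSucc u) (act (pw k) c z) := by
    intro i
    have h2 : D i.castSucc (fun z => u (act (pw k) c z))
        = fun z => c * D i.castSucc u (act (pw k) c z) := by
      funext z
      rw [D_act hu, pw_castSucc, pow_one]
    rw [h2]
    have h3 : D i.castSucc (fun z => c * D i.castSucc u (act (pw k) c z)) z
        = c * D i.castSucc (fun z => D i.castSucc u (act (pw k) c z)) z := by
      unfold D
      rw [fderiv_const_mul]
      · rfl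
      · exact (diff_act (differentiable_D hu _) _ c) z
    rw [h3, D_act (differentiable_D hu _), pw_castSucc]
    ring
  simp only [h1, D_act hu, pw_last, mul_sub, Finset.mul_sum]
  congr 1
  · refine Finset.sum_congr rfl fun i _ => by ring
  · ring

/-- The real body contains a ball about `(0, …, 0, 1)`. -/
lemma mem_Om_near {s : Fin k → ℝ} (hs : ∀ i, 0 < s i) {b : ℝ} (hb : 0 < b) :
    ∃ η : ℝ, 0 < η ∧ ∀ y : Fin (k + 1) → ℝ, ‖y‖ ≤ η →
      (Pi.single (Fin.last k) 1 + y : Fin (k + 1) → ℝ) ∈ Om s b 2 := by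
  set S := ∑ i, s i with hS
  have hS0 : 0 ≤ S := Finset.sum_nonneg fun i _ => (hs i).le
  refine ⟨min (1 / 2) (b / (2 * (S + 1))), lt_min (by norm_num) (by positivity), fun y hy => ?_⟩
  have hy1 : ‖y‖ ≤ 1 / 2 := hy.trans (min_le_left _ _)
  have hy2 : ‖y‖ ≤ b / (2 * (S + 1)) := hy.trans (min_le_right _ _)
  have hyj : ∀ j, |y j| ≤ ‖y‖ := fun j => norm_le_pi_norm y j
  have hlast : (Pi.single (Fin.last k) 1 + y : Fin (k + 1) → ℝ) (Fin.last k)
      = 1 + y (Fin.last k) := by simp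
  have hcs : ∀ i : Fin k, (Pi.single (Fin.last k) 1 + y : Fin (k + 1) → ℝ) i.castSucc
      = y i.castSucc := by
    intro i
    rw [Pi.add_apply, Pi.single_eq_of_ne (Fin.castSucc_lt_last i).ne, zero_add]
  have hl := abs_le.1 ((hyj (Fin.last k)).trans hy1)
  constructor
  · rw [hlast]
    have h1 : ∑ i, s i * (Pi.single (Fin.last k) 1 + y : Fin (k + 1) → ℝ) i.castSucc ^ 2
        ≤ ∑ i, s i * (b / (2 * (S + 1))) := by
      refine Finset.sum_le_sum fun i _ => mul_le_mul_of_nonneg_left ?_ (hs i).le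
      rw [hcs]
      calc y i.castSucc ^ 2 = |y i.castSucc| * |y i.castSucc| := by
            rw [abs_mul_abs_self]; ring
        _ ≤ ‖y‖ * 1 := mul_le_mul (hyj _) ((hyj _).trans (by linarith)) (abs_nonneg _)
            (norm_nonneg _)
        _ ≤ b / (2 * (S + 1)) := by linarith
    refine h1.trans ?_
    rw [← Finset.sum_mul, ← hS]
    have h2 : S * (b / (2 * (S + 1))) ≤ b / 2 := by
      rw [mul_div_assoc', div_le_div_iff₀ (by positivity) (by norm_num)]
      nlinarith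
    nlinarith [hl.1]
  · rw [hlast]
    linarith [hl.2]

/-- The components, on the ball, are controlled by their values on the real body. -/
lemma wc_ext {s : Fin k → ℝ} (hs : ∀ i, 0 < s i) {b : ℝ} (hb : 0 < b) (R : ℝ) :
    ∃ C : ℝ, 1 ≤ C ∧ ∀ u : (Fin (k + 1) → ℂ) → ℂ, Differentiable ℂ u → ∀ (d : ℕ) (B : ℝ), 0 ≤ B →
      (∀ y ∈ Om s b 2, ‖wc (pw k) u d (rc y)‖ ≤ B) →
        ∀ z, ‖z‖ ≤ R → ‖wc (pw k) u d z‖ ≤ B * C ^ (2 * (d + 1)) := by
  obtain ⟨η, hη, hOm⟩ := mem_Om_near hs hb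
  set R' : ℝ := |R| + 1 with hR'
  have hR'0 : 0 < R' := by positivity
  set δ : ℝ := η / (2 * R') with hδ
  have hδ0 : 0 < δ := by positivity
  obtain ⟨C, hC1, hC⟩ := poly_ext (show -δ < δ by linarith) 1
  refine ⟨C, hC1, fun u hu d B hB hw z hz => ?_⟩
  set e : Fin (k + 1) → ℝ := Pi.single (Fin.last k) 1 with he
  set p : Fin (k + 1) → ℝ := fun j => (z j).re - e j with hp
  set q : Fin (k + 1) → ℝ := fun j => (z j).im with hq
  have hzR : ‖z‖ ≤ |R| := hz.trans (le_abs_self R)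
  have hpn : ‖p‖ ≤ R' := by
    rw [pi_norm_le_iff_of_nonneg hR'0.le]
    intro j
    have h1 : |(z j).re| ≤ |R| := (Complex.abs_re_le_norm _).trans ((norm_le_pi_norm z j).trans hzR)
    have h2 : |e j| ≤ 1 := by
      rw [he]
      by_cases hj : j = Fin.last k
      · subst hj; simp
      · simp [Pi.single_eq_of_ne hj]
    rw [Real.norm_eq_abs]
    exact (abs_sub _ _).trans (add_le_add h1 h2)
  have hqn : ‖q‖ ≤ R' := by
    rw [pi_norm_le_iff_of_nonneg hR'0.le]
    intro j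
    have h1 : |(z j).im| ≤ |R| := (Complex.abs_im_le_norm _).trans ((norm_le_pi_norm z j).trans hzR)
    rw [Real.norm_eq_abs]
    exact h1.trans (by rw [hR']; linarith)
  have hsmall : ∀ t : ℝ, -δ ≤ t → t ≤ δ → ∀ v : Fin (k + 1) → ℝ, ‖v‖ ≤ R' → ‖t • v‖ ≤ η / 2 := by
    intro t h1 h2 v hv
    rw [norm_smul, Real.norm_eq_abs]
    calc |t| * ‖v‖ ≤ δ * R' := mul_le_mul (abs_le.2 ⟨h1, h2⟩) hv (norm_nonneg _) hδ0.le
      _ = η / 2 := by rw [hδ]; field_simp
  -- the first variable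
  have h1 : ∀ m : ℝ, -δ ≤ m → m ≤ δ → ∀ l : ℂ, ‖l‖ ≤ 1 →
      ‖wc (pw k) u d ((rc e + (m : ℂ) • rc q) + l • rc p)‖ ≤ B * C ^ (d + 1) := by
    intro m hm1 hm2 l hl
    obtain ⟨P, hPd, hP⟩ := wc_poly hu one_le_pw d (rc e + (m : ℂ) • rc q) (rc p)
    rw [hP]
    refine hC d P hPd B hB (fun x hx1 hx2 => ?_) l hl
    rw [← hP]
    have h2 : (rc e + (m : ℂ) • rc q) + (x : ℂ) • rc p = rc (e + (m • q + x • p)) := by
      funext j
      simp only [rc, Pi.add_apply, Pi.smul_apply, smul_eq_mul, Complex.ofReal_add,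
        Complex.ofReal_mul]
      ring
    rw [h2]
    refine hw _ (hOm _ ((norm_add_le _ _).trans ?_))
    have h3 := hsmall m hm1 hm2 q hqn
    have h4 := hsmall x hx1 hx2 p hpn
    linarith
  -- the second variable
  obtain ⟨P, hPd, hP⟩ := wc_poly hu one_le_pw d (rc e + rc p) (rc q)
  have h5 : z = (rc e + rc p) + Complex.I • rc q := by
    funext j
    simp only [rc, Pi.add_apply, Pi.smul_apply, smul_eq_mul, hp, hq, Complex.ofReal_sub]
    rw [add_sub_cancel, mul_comm Complex.I]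
    exact (Complex.re_add_im _).symm
  rw [h5, hP]
  have h6 := hC d P hPd (B * C ^ (d + 1)) (by positivity) (fun x hx1 hx2 => by
    rw [← hP]
    have h7 := h1 x hx1 hx2 1 (by simp)
    have h8 : rc e + rc p + (x : ℂ) • rc q = rc e + (x : ℂ) • rc q + (1 : ℂ) • rc p := by
      rw [one_smul]; abel
    rw [h8]
    exact h7) Complex.I (by simp)
  refine h6.trans (le_of_eq ?_)
  rw [mul_assoc, ← pow_add]
  congr 2
  ring

/-- The a priori estimate. -/
theorem est_par {s : Fin k → ℝ} (hs : ∀ i, 0 < s i) {b : ℝ} (hb : 0 < b) : Est (par s b) := by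
  intro ρ
  obtain ⟨C, hC1, hC⟩ := wc_ext hs hb ρ
  set r : ℝ := 2 * C ^ 2 with hr
  have hC0 : 0 < C := by linarith
  have hr1 : 1 ≤ r := by rw [hr]; nlinarith
  have hr0 : 0 < r := by linarith
  obtain ⟨M, hM⟩ := (isCompact_Om hs hb 2).isBounded.exists_norm_le
  refine ⟨r ^ 2 * |M|, 4 * r ^ 2 * C ^ 2 / b, fun f hf A hA z hz => ?_⟩
  have hA0 : 0 ≤ A := (norm_nonneg _).trans (hA 0 (by rw [norm_zero]; positivity))
  set u : (Fin (k + 1) → ℂ) → ℂ := fun z => eval z (par s b) * f z with hu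
  have hud : Differentiable ℂ u := (mulEnt (par s b) ⟨f, hf⟩).2
  have hG : ∀ z, ‖z‖ ≤ r ^ 2 * |M| → ‖∑ i, (s i : ℂ) * D i.castSucc (D i.castSucc u) z
      - b * D (Fin.last k) u z‖ ≤ A := by
    intro z hz
    rw [← QD_par s b ⟨u, hud⟩ z]
    exact hA z hz
  -- the bound on the body
  have h1 : ∀ c : ℂ, ‖c‖ = r → ∀ y ∈ Om s b 2, ‖u (act (pw k) c (rc y))‖ ≤ 2 * (r ^ 2 * A / b) := by
    intro c hc y hy
    have h2 := maxp hs hb (T := 2) (u := fun z => u (act (pw k) c z)) (diff_act hud _ c)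
      (A := r ^ 2 * A) (fun y hy => by
        change eval (act (pw k) c (rc y)) (par s b) * _ = 0
        rw [eval_par_act, eval_par]
        have h3 : ∑ i, (s i : ℂ) * rc y i.castSucc ^ 2 - b * rc y (Fin.last k) = 0 := by
          have h4 := congrArg (fun x : ℝ => (x : ℂ)) hy
          simp only [Complex.ofReal_sum, Complex.ofReal_mul, Complex.ofReal_pow] at h4
          exact sub_eq_zero.2 h4
        rw [h3, mul_zero, zero_mul]) (fun y hy => by
        rw [heat_act s b hud, norm_mul, norm_pow, hc]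
        refine mul_le_mul_of_nonneg_left (hG _ ?_) (by positivity)
        rw [pi_norm_le_iff_of_nonneg (by positivity)]
        intro j
        change ‖c ^ pw k j * (y j : ℂ)‖ ≤ _
        rw [norm_mul, norm_pow, hc, Complex.norm_real]
        refine mul_le_mul (pow_le_pow_right₀ hr1 ?_) ?_ (norm_nonneg _) (by positivity)
        · unfold pw; split_ifs <;> norm_num
        · exact ((norm_le_pi_norm y j).trans (hM y hy)).trans (le_abs_self M)) y hy
    refine h2.trans ?_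
    rw [mul_comm]
    exact mul_le_mul_of_nonneg_right hy.2 (by positivity)
  -- the components
  have h2 : ∀ d, ‖wc (pw k) u d z‖ ≤ (2 * (r ^ 2 * A / b) * C ^ 2) * (1 / 2) ^ d := by
    intro d
    have h3 := hC u hud d (2 * (r ^ 2 * A / b) * (r⁻¹) ^ d) (by positivity) (fun y hy =>
      wc_bound hud _ _ d hr0 fun c hc => h1 c hc y hy) z hz
    refine h3.trans (le_of_eq ?_)
    have h4 : r⁻¹ * C ^ 2 = 1 / 2 := by
      rw [hr]; field_simp
    rw [← h4, mul_pow]
    ring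
  have h3 := wc_hasSum hud (pw k) z
  have h4 : HasSum (fun d : ℕ => (2 * (r ^ 2 * A / b) * C ^ 2) * (1 / 2 : ℝ) ^ d)
      ((2 * (r ^ 2 * A / b) * C ^ 2) * 2) := hasSum_geometric_two.mul_left _
  have h5 := tsum_of_norm_bounded h4 h2
  rw [h3.tsum_eq] at h5
  refine h5.trans (le_of_eq ?_)
  ring

end Pool.Agent.H77.FB2
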