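import Pool.Agent.H77.FB2.Par
import Pool.Agent.H37.FB.Surj
import Pool.Agent.H77.FB.Inj

/-!
Weighted dilations, and the components of an entire function for them.
-/

open MvPolynomial MeasureTheory Pool.Agent.H77.FB Pool.Agent.H60.FB

namespace Pool.Agent.H77.FB2

variable {n : ℕ}

/-- The weighted dilation. -/
def act (wt : Fin n → ℕ) (c : ℂ) (z : Fin n → ℂ) : Fin n → ℂ := fun j => c ^ wt j * z j

lemma act_one (wt : Fin n → ℕ) (z : Fin n → ℂ) : act wt 1 z = z := by
  funext j; simp [act]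

lemma act_act (wt : Fin n → ℕ) (c d : ℂ) (z : Fin n → ℂ) :
    act wt c (act wt d z) = act wt (c * d) z := by
  funext j; simp only [act]; ring

lemma norm_act_unit (wt : Fin n → ℕ) {c : ℂ} (hc : ‖c‖ = 1) (z : Fin n → ℂ) :
    ‖act wt c z‖ = ‖z‖ := by
  simp only [Pi.norm_def]
  congr 2
  funext j
  apply NNReal.eq
  simp [act, hc]

/-- The dilation, as a continuous linear map. -/
noncomputable def actL (wt : Fin n → ℕ) (c : ℂ) : (Fin n → ℂ) →L[ℂ] (Fin n → ℂ) :=
  ContinuousLinearMap.pi fun j => c ^ wt j • ContinuousLinearMap.proj j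

lemma actL_apply (wt : Fin n → ℕ) (c : ℂ) (z : Fin n → ℂ) : actL wt c z = act wt c z := by
  funext j; simp [actL, act]

lemma diff_act {u : (Fin n → ℂ) → ℂ} (hu : Differentiable ℂ u) (wt : Fin n → ℕ) (c : ℂ) :
    Differentiable ℂ (fun z => u (act wt c z)) := by
  have h : (fun z => u (act wt c z)) = fun z => u (actL wt c z) := by
    funext z; rw [actL_apply]
  rw [h]
  exact hu.comp (actL wt c).differentiable

lemma diff_act_left {u : (Fin n → ℂ) → ℂ} (hu : Differentiable ℂ u) (wt : Fin n → ℕ)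
    (z : Fin n → ℂ) : Differentiable ℂ (fun c => u (act wt c z)) := by
  apply hu.comp
  rw [differentiable_pi]
  intro j
  exact (differentiable_id.pow (wt j)).mul_const _

lemma D_act {u : (Fin n → ℂ) → ℂ} (hu : Differentiable ℂ u) (wt : Fin n → ℕ) (c : ℂ)
    (j : Fin n) (z : Fin n → ℂ) :
    D j (fun z => u (act wt c z)) z = c ^ wt j * D j u (act wt c z) := by
  unfold D
  have h : (fun z => u (act wt c z)) = fun z => u (actL wt c z) := by
    funext z; rw [actL_apply]
  rw [h]
  have h1 : HasFDerivAt (fun z => u (actL wt c z))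
      ((fderiv ℂ u (actL wt c z)).comp (actL wt c)) z :=
    (hu _).hasFDerivAt.comp z (actL wt c).hasFDerivAt
  rw [h1.fderiv, ContinuousLinearMap.comp_apply, actL_apply, actL_apply]
  have h2 : act wt c (Pi.single j 1) = c ^ wt j • Pi.single j 1 := by
    funext i
    by_cases hij : i = j
    · subst hij; simp [act]
    · simp [act, Pi.single_eq_of_ne hij]
  rw [h2, map_smul, smul_eq_mul]

/-- The component of weighted degree `d`. -/
noncomputable def wc (wt : Fin n → ℕ) (u : (Fin n → ℂ) → ℂ) (d : ℕ) (z : Fin n → ℂ) : ℂ :=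
  (cauchyPowerSeries (fun c : ℂ => u (act wt c z)) 0 1 d fun _ => 1)

lemma wc_hasSum {u : (Fin n → ℂ) → ℂ} (hu : Differentiable ℂ u) (wt : Fin n → ℕ)
    (z : Fin n → ℂ) : HasSum (fun d => wc wt u d z) (u z) := by
  have h := (diff_act_left hu wt z).hasFPowerSeriesOnBall 0 (R := 1) one_pos
  have h1 := h.hasSum (y := 1) (by simp)
  simpa [wc, act_one] using h1

lemma wc_radius {u : (Fin n → ℂ) → ℂ} (hu : Differentiable ℂ u) (wt : Fin n → ℕ)
    (z : Fin n → ℂ) (d : ℕ) {r : NNReal} (hr : 0 < r) :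
    wc wt u d z = (cauchyPowerSeries (fun c : ℂ => u (act wt c z)) 0 r d fun _ => 1) := by
  have h := ((diff_act_left hu wt z).hasFPowerSeriesOnBall 0 (R := 1) one_pos).hasFPowerSeriesAt
  have h' := ((diff_act_left hu wt z).hasFPowerSeriesOnBall 0 hr).hasFPowerSeriesAt
  have h1 := h.eq_formalMultilinearSeries h'
  unfold wc
  rw [← h1]
  rfl

lemma wc_bound {u : (Fin n → ℂ) → ℂ} (hu : Differentiable ℂ u) (wt : Fin n → ℕ)
    (z : Fin n → ℂ) (d : ℕ) {r : ℝ} (hr : 0 < r) {M : ℝ}
    (hM : ∀ c : ℂ, ‖c‖ = r → ‖u (act wt c z)‖ ≤ M) : ‖wc wt u d z‖ ≤ M * (r⁻¹) ^ d := by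
  lift r to NNReal using hr.le
  rw [wc_radius hu wt z d (by exact_mod_cast hr)]
  refine (ContinuousMultilinearMap.le_opNorm _ _).trans ?_
  simp only [norm_one, Finset.prod_const_one, mul_one]
  refine (norm_cauchyPowerSeries_le _ _ _ _).trans ?_
  rw [abs_of_pos hr]
  apply mul_le_mul_of_nonneg_right _ (by positivity)
  have h1 : ‖∫ θ in (0 : ℝ)..2 * Real.pi, ‖u (act wt (circleMap 0 r θ) z)‖‖
      ≤ M * |2 * Real.pi - 0| := by
    apply intervalIntegral.norm_integral_le_of_norm_le_const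
    intro θ _
    rw [norm_norm]
    apply hM
    simp
  rw [sub_zero, abs_of_pos (by positivity : 0 < 2 * Real.pi)] at h1
  have h2 := (le_abs_self _).trans ((Real.norm_eq_abs _).symm.le.trans h1)
  rw [inv_mul_le_iff₀ (by positivity)]
  linarith

/-- The component of weighted degree `d` is a polynomial of degree at most `d` along lines, if
all weights are positive. -/
lemma wc_poly {u : (Fin n → ℂ) → ℂ} (hu : Differentiable ℂ u) {wt : Fin n → ℕ}
    (hwt : ∀ j, 1 ≤ wt j) (d : ℕ) (p q : Fin n → ℂ) :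
    ∃ P : Polynomial ℂ, P.natDegree ≤ d ∧ ∀ l : ℂ, wc wt u d (p + l • q) = P.eval l := by
  -- the bound on the unit ball
  obtain ⟨M, hM⟩ := (isCompact_closedBall (0 : Fin n → ℂ) 1).exists_bound_of_continuousOn
    hu.continuous.continuousOn
  have hM0 : 0 ≤ M := (norm_nonneg _).trans (hM 0 (by simp))
  set K : ℝ := ‖p‖ + ‖q‖ + 1 with hK
  have hK1 : 1 ≤ K := by
    have := norm_nonneg p; have := norm_nonneg q; linarith
  refine poly_of_growth (M := M * K ^ d) ?_ ?_
  · -- differentiability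
    have h1 : (fun l : ℂ => wc wt u d (p + l • q)) = fun l => (2 * Real.pi * Complex.I : ℂ)⁻¹ •
        ∫ θ in (0 : ℝ)..2 * Real.pi, deriv (circleMap 0 1) θ • (((1 : ℂ) /
          (circleMap 0 1 θ - 0)) ^ d • ((circleMap 0 1 θ - 0)⁻¹ •
            u (act wt (circleMap 0 1 θ) (p + l • q)))) := by
      funext l
      unfold wc
      rw [cauchyPowerSeries_apply]
      rfl
    rw [h1]
    apply Differentiable.fun_const_smul
    apply differentiable_integral
    · have hne : ∀ θ : ℝ, circleMap 0 1 θ - 0 ≠ 0 := fun θ => by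
        rw [sub_zero]; exact circleMap_ne_center one_ne_zero
      have hcm : Continuous (fun x : ℝ × ℂ => circleMap 0 1 x.1) :=
        (continuous_circleMap 0 1).comp continuous_fst
      change Continuous (fun x : ℝ × ℂ => deriv (circleMap 0 1) x.1 •
        (((1 : ℂ) / (circleMap 0 1 x.1 - 0)) ^ d • ((circleMap 0 1 x.1 - 0)⁻¹ •
          u (act wt (circleMap 0 1 x.1) (p + x.2 • q)))))
      have hz : Continuous (fun x : ℝ × ℂ => act wt (circleMap 0 1 x.1) (p + x.2 • q)) := by
        apply continuous_pi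
        intro j
        exact (hcm.pow (wt j)).mul (continuous_const.add (continuous_snd.mul continuous_const))
      simp only [smul_eq_mul]
      refine Continuous.mul ?_ (Continuous.mul ?_ (Continuous.mul ?_ ?_))
      · simp only [deriv_circleMap]
        exact hcm.mul continuous_const
      · exact ((continuous_const.div (hcm.sub continuous_const)) fun x => hne x.1).pow d
      · exact (hcm.sub continuous_const).inv₀ fun x => hne x.1
      · exact hu.continuous.comp hz
    · intro θ
      apply Differentiable.fun_const_smul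
      apply Differentiable.fun_const_smul
      apply Differentiable.fun_const_smul
      exact (diff_act hu wt _).comp ((differentiable_id.smul_const q).const_add p)
  · intro R hR l hl
    set R' : ℝ := K * R with hR'
    have hR'1 : 1 ≤ R' := by rw [hR']; nlinarith
    have hnorm : ‖p + l • q‖ ≤ R' := by
      refine (norm_add_le _ _).trans ?_
      rw [norm_smul]
      have h1 : ‖l‖ * ‖q‖ ≤ R * ‖q‖ := mul_le_mul_of_nonneg_right hl (norm_nonneg _)
      have h2 : ‖p‖ ≤ R * ‖p‖ := le_mul_of_one_le_left (norm_nonneg _) hR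
      rw [hR', hK]
      nlinarith
    have h3 := wc_bound hu wt (p + l • q) d (r := R'⁻¹) (by positivity) (M := M) (fun c hc => by
      apply hM
      rw [mem_closedBall_zero_iff, pi_norm_le_iff_of_nonneg zero_le_one]
      intro j
      have h4 : ‖c‖ ≤ 1 := by rw [hc]; exact inv_le_one_of_one_le₀ hR'1
      have h5 : ‖c‖ ^ wt j ≤ ‖c‖ := by
        calc ‖c‖ ^ wt j ≤ ‖c‖ ^ 1 := pow_le_pow_of_le_one (norm_nonneg _) h4 (hwt j)
          _ = ‖c‖ := pow_one _
      have h6 : ‖(p + l • q) j‖ ≤ R' := (norm_le_pi_norm _ j).trans hnorm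
      change ‖c ^ wt j * (p + l • q) j‖ ≤ 1
      rw [norm_mul, norm_pow]
      calc ‖c‖ ^ wt j * ‖(p + l • q) j‖ ≤ ‖c‖ * R' :=
            mul_le_mul h5 h6 (norm_nonneg _) (norm_nonneg _)
        _ = 1 := by rw [hc, inv_mul_cancel₀ (by positivity)])
    rw [inv_inv] at h3
    refine h3.trans (le_of_eq ?_)
    rw [hR', mul_pow]
    ring

/-- Two operators that are continuous at each point and agree on the exponentials are equal. -/
lemma op_ext {A B : Ent n →ₗ[ℂ] Ent n}
    (hA : ∀ z, ∃ R C : ℝ, ∀ f : Ent n, ∀ K : ℝ, (∀ z, ‖z‖ ≤ R → ‖f.1 z‖ ≤ K) →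
      ‖(A f).1 z‖ ≤ C * K)
    (hB : ∀ z, ∃ R C : ℝ, ∀ f : Ent n, ∀ K : ℝ, (∀ z, ‖z‖ ≤ R → ‖f.1 z‖ ≤ K) →
      ‖(B f).1 z‖ ≤ C * K)
    (h : ∀ w, A (expo w) = B (expo w)) (f : Ent n) (z : Fin n → ℂ) :
    (A f).1 z = (B f).1 z := by
  set T : Ent n →ₗ[ℂ] ℂ :=
    { toFun := fun f => (A f).1 z - (B f).1 z
      map_add' := fun f g => by
        rw [map_add, map_add]
        change (A f).1 z + (A g).1 z - ((B f).1 z + (B g).1 z) = _
        ring
      map_smul' := fun c f => by
        rw [map_smul, map_smul]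
        change c * (A f).1 z - c * (B f).1 z = c * ((A f).1 z - (B f).1 z)
        ring } with hT
  have hAF : IsAF T := by
    obtain ⟨R1, C1, h1⟩ := hA z
    obtain ⟨R2, C2, h2⟩ := hB z
    refine ⟨max R1 R2, C1 + C2, fun f K hK => ?_⟩
    rw [add_mul]
    refine (norm_sub_le _ _).trans (add_le_add ?_ ?_)
    · exact h1 f K fun w hw => hK w (hw.trans (le_max_left _ _))
    · exact h2 f K fun w hw => hK w (hw.trans (le_max_right _ _))
  have h0 : T = 0 := by
    refine eq_zero_of_borel hAF fun w => ?_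
    change (A (expo w)).1 z - (B (expo w)).1 z = 0
    rw [h, sub_self]
  have h1 : T f = 0 := by rw [h0]; rfl
  exact sub_eq_zero.1 h1

end Pool.Agent.H77.FB2
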